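import Mathlib

set_option autoImplicit false

namespace Pool.Agent.H.MP_387a72_lc
open Set

structure Game (P : Type) where
  al : P → Prop
  s : P → P → Prop

variable {P P' : Type}

def ge (G : Game P) (α : Ordinal.{0}) (p : P) : Prop :=
  ∀ β, β < α → (G.al p → ∀ q, G.s p q → ge G β q) ∧ (¬ G.al p → ∃ q, G.s p q ∧ ge G β q)
termination_by α

abbrev W := WithTop Ordinal.{0}

def Q (G : Game P) (β : Ordinal.{0}) (p : P) : Prop :=
  (G.al p → ∀ q, G.s p q → ge G β q) ∧ (¬ G.al p → ∃ q, G.s p q ∧ ge G β q)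

noncomputable def rk (G : Game P) (p : P) : W := ⨅ (β : Ordinal.{0}) (_ : ¬ Q G β p), (β : W)

theorem le_rk (G : Game P) (α : Ordinal.{0}) (p : P) : (α : W) ≤ rk G p ↔ ge G α p := by
  rw [ge, rk]
  simp only [le_iInf_iff, WithTop.coe_le_coe]
  constructor
  · intro h β hβ
    by_contra hq
    exact absurd (h β hq) (not_le.mpr hβ)
  · intro h β hq
    by_contra hlt
    exact hq (h β (not_le.mp hlt))

theorem lt_rk (G : Game P) (β : Ordinal.{0}) (p : P) : (β : W) < rk G p ↔ Q G β p := by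
  have h1 : (β : W) < rk G p ↔ ((β + 1 : Ordinal.{0}) : W) ≤ rk G p := by
    generalize rk G p = a
    induction a using WithTop.recTopCoe with
    | top => simp
    | coe γ => simp only [WithTop.coe_lt_coe, WithTop.coe_le_coe, Order.add_one_le_iff]
  rw [h1, le_rk, ge]
  constructor
  · intro h
    exact h β (lt_add_one β)
  · intro h γ hγ
    have hle : (γ : W) ≤ β := WithTop.coe_le_coe.mpr (Order.lt_add_one_iff.mp hγ)
    refine ⟨fun ha q hq => ?_, fun ha => ?_⟩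
    · exact (le_rk G γ q).mp (hle.trans ((le_rk G β q).mpr (h.1 ha q hq)))
    · obtain ⟨q, hq, hg⟩ := h.2 ha
      exact ⟨q, hq, (le_rk G γ q).mp (hle.trans ((le_rk G β q).mpr hg))⟩

theorem le_of_lt_imp {a b : W} (h : ∀ β : Ordinal.{0}, (β : W) < a → (β : W) < b) : a ≤ b := by
  by_contra hlt
  have hlt := not_le.mp hlt
  induction b using WithTop.recTopCoe with
  | top => exact absurd hlt not_top_lt
  | coe γ => exact absurd (h γ hlt) (lt_irrefl _)

theorem le_of_le_imp {a b : W} (h : ∀ β : Ordinal.{0}, (β : W) ≤ a → (β : W) ≤ b) : a ≤ b := by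
  refine le_of_lt_imp fun β hβ => ?_
  have h1 : ((β + 1 : Ordinal.{0}) : W) ≤ a := by
    induction a using WithTop.recTopCoe with
    | top => exact le_top
    | coe γ => exact WithTop.coe_le_coe.mpr (Order.add_one_le_iff.mpr (WithTop.coe_lt_coe.mp hβ))
  exact lt_of_lt_of_le (WithTop.coe_lt_coe.mpr (lt_add_one β)) (h _ h1)

theorem eq_top_of {a : W} (h : ∀ β : Ordinal.{0}, (β : W) ≤ a) : a = ⊤ :=
  top_le_iff.mp (le_of_le_imp fun β _ => h β)

/-- the guarded strict order -/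
def Lt (β γ : W) : Prop := β < γ ∨ γ = ⊤

theorem Lt.le {β γ : W} (h : Lt β γ) : β ≤ γ := h.elim le_of_lt fun h => h ▸ le_top

theorem Lt.mono {β β' γ γ' : W} (h : Lt β γ) (h1 : β' ≤ β) (h2 : γ ≤ γ') : Lt β' γ' :=
  h.elim (fun h => Or.inl (lt_of_le_of_lt h1 (lt_of_lt_of_le h h2)))
    fun h => Or.inr (top_le_iff.mp (h ▸ h2))

theorem lt_coe {β : Ordinal.{0}} {γ : W} : Lt β γ ↔ (β : W) < γ :=
  ⟨fun h => h.elim id fun h => h ▸ WithTop.coe_lt_top β, Or.inl⟩

theorem lt_top {γ : W} : Lt ⊤ γ ↔ γ = ⊤ := ⟨fun h => h.elim (fun h => absurd h not_top_lt) id, Or.inr⟩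

theorem al_iff {G : Game P} {p : P} (h : G.al p) (β : W) :
    Lt β (rk G p) ↔ ∀ q, G.s p q → β ≤ rk G q := by
  have hc : ∀ γ : Ordinal.{0}, (γ : W) < rk G p ↔ ∀ q, G.s p q → (γ : W) ≤ rk G q := by
    intro γ
    rw [lt_rk, Q]
    simp only [h, true_implies, not_true_eq_false, false_implies, and_true, le_rk]
  induction β using WithTop.recTopCoe with
  | coe γ => rw [lt_coe, hc]
  | top =>
    rw [lt_top]
    constructor
    · intro ht q hq
      refine le_of_le_imp fun γ _ => (hc γ).mp (ht ▸ WithTop.coe_lt_top γ) q hq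
    · intro ht
      exact eq_top_of fun γ => ((hc γ).mpr fun q hq => le_top.trans (ht q hq)).le

theorem ex_iff {G : Game P} {p : P} (h : ¬ G.al p) (β : W) :
    Lt β (rk G p) ↔ ∃ q, G.s p q ∧ β ≤ rk G q := by
  have hc : ∀ γ : Ordinal.{0}, (γ : W) < rk G p ↔ ∃ q, G.s p q ∧ (γ : W) ≤ rk G q := by
    intro γ
    rw [lt_rk, Q]
    simp only [h, false_implies, not_false_eq_true, true_implies, true_and, le_rk]
  induction β using WithTop.recTopCoe with
  | coe γ => rw [lt_coe, hc]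
  | top =>
    rw [lt_top]
    constructor
    · intro ht
      by_contra hn
      push Not at hn
      have : ∀ q, ∃ γ : Ordinal.{0}, G.s p q → rk G q < γ := by
        intro q
        by_cases hq : G.s p q
        · obtain ⟨γ, hγ⟩ := WithTop.ne_top_iff_exists.mp (hn q hq).ne
          exact ⟨γ + 1, fun _ => hγ ▸ WithTop.coe_lt_coe.mpr (lt_add_one γ)⟩
        · exact ⟨0, fun h => absurd h hq⟩
      choose g hg using this
      obtain ⟨q, hq, hle⟩ := (hc (iSup g)).mp (ht ▸ WithTop.coe_lt_top _)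
      have h1 : g q ≤ iSup g := Ordinal.le_iSup g q
      exact absurd ((hg q hq).trans_le ((WithTop.coe_le_coe.mpr h1).trans hle)) (lt_irrefl _)
    · rintro ⟨q, hq, ht⟩
      exact eq_top_of fun γ => ((hc γ).mpr ⟨q, hq, le_top.trans ht⟩).le

theorem al_top {G : Game P} {p : P} (h : G.al p) :
    rk G p = ⊤ ↔ ∀ q, G.s p q → rk G q = ⊤ := by
  rw [← lt_top, al_iff h]; simp only [top_le_iff]

theorem ex_top {G : Game P} {p : P} (h : ¬ G.al p) :
    rk G p = ⊤ ↔ ∃ q, G.s p q ∧ rk G q = ⊤ := by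
  rw [← lt_top, ex_iff h]; simp only [top_le_iff]

theorem le_of_Lt {a b : W} (h : ∀ β : W, Lt β a → Lt β b) : a ≤ b :=
  le_of_lt_imp fun β hβ => lt_coe.mp (h β (lt_coe.mpr hβ))

theorem al_le {G : Game P} {G' : Game P'} {p : P} {p' : P'} (h : G.al p) (h' : G'.al p')
    (hs : ∀ q', G'.s p' q' → ∃ q, G.s p q ∧ rk G q ≤ rk G' q') : rk G p ≤ rk G' p' := by
  refine le_of_Lt fun β hβ => (al_iff h' β).mpr fun q' hq' => ?_
  obtain ⟨q, hq, hle⟩ := hs q' hq'
  exact ((al_iff h β).mp hβ q hq).trans hle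

theorem ex_le {G : Game P} {G' : Game P'} {p : P} {p' : P'} (h : ¬ G.al p) (h' : ¬ G'.al p')
    (hs : ∀ q, G.s p q → ∃ q', G'.s p' q' ∧ rk G q ≤ rk G' q') : rk G p ≤ rk G' p' := by
  refine le_of_Lt fun β hβ => ?_
  obtain ⟨q, hq, hle⟩ := (ex_iff h β).mp hβ
  obtain ⟨q', hq', hle'⟩ := hs q hq
  exact (ex_iff h' β).mpr ⟨q', hq', hle.trans hle'⟩

theorem sim_le {G : Game P} {G' : Game P'} (ρ : P → P' → Prop)
    (hρ : ∀ p p', ρ p p' → (G.al p ∧ G'.al p' ∧ ∀ q', G'.s p' q' → ∃ q, G.s p q ∧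
        (ρ q q' ∨ rk G q ≤ rk G' q')) ∨
      (¬ G.al p ∧ ¬ G'.al p' ∧ ∀ q, G.s p q → ∃ q', G'.s p' q' ∧ (ρ q q' ∨ rk G q ≤ rk G' q')))
    {p : P} {p' : P'} (h : ρ p p') : rk G p ≤ rk G' p' := by
  have key : ∀ α : Ordinal.{0}, ∀ p p', ρ p p' → (α : W) ≤ rk G p → (α : W) ≤ rk G' p' := by
    intro α
    induction α using WellFoundedLT.induction with
    | ind α ih =>
      intro p p' h hα
      refine le_of_lt_imp fun β hβ => ?_
      have hb : Lt β (rk G p) := lt_coe.mpr (hβ.trans_le hα)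
      rcases hρ p p' h with ⟨h1, h2, h3⟩ | ⟨h1, h2, h3⟩
      · refine lt_coe.mp ((al_iff h2 β).mpr fun q' hq' => ?_)
        obtain ⟨q, hq, hr⟩ := h3 q' hq'
        have := (al_iff h1 β).mp hb q hq
        exact hr.elim (fun hr => ih β (WithTop.coe_lt_coe.mp hβ) q q' hr this) this.trans
      · obtain ⟨q, hq, hle⟩ := (ex_iff h1 β).mp hb
        obtain ⟨q', hq', hr⟩ := h3 q hq
        refine lt_coe.mp ((ex_iff h2 β).mpr ⟨q', hq', ?_⟩)
        exact hr.elim (fun hr => ih β (WithTop.coe_lt_coe.mp hβ) q q' hr hle) hle.trans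
  exact le_of_le_imp fun β hβ => key β p p' h hβ

theorem coind {G : Game P} (X : P → Prop)
    (hX : ∀ p, X p → (G.al p ∧ ∀ q, G.s p q → X q) ∨ (¬ G.al p ∧ ∃ q, G.s p q ∧ X q))
    {p : P} (h : X p) : rk G p = ⊤ := by
  have key : ∀ α : Ordinal.{0}, ∀ p, X p → (α : W) ≤ rk G p := by
    intro α
    induction α using WellFoundedLT.induction with
    | ind α ih =>
      intro p h
      refine le_of_lt_imp fun β hβ => ?_
      have hβ' := WithTop.coe_lt_coe.mp hβ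
      rcases hX p h with ⟨h1, h2⟩ | ⟨h1, q, hq, h2⟩
      · exact lt_coe.mp ((al_iff h1 β).mpr fun q hq => ih β hβ' q (h2 q hq))
      · exact lt_coe.mp ((ex_iff h1 β).mpr ⟨q, hq, ih β hβ' q h2⟩)
  exact eq_top_of fun α => key α p h

theorem al_att {G : Game P} {p : P} (h : G.al p) (ht : rk G p ≠ ⊤) :
    ∃ q, G.s p q ∧ rk G q < rk G p := by
  by_contra hn
  push Not at hn
  rcases (al_iff h (rk G p)).mpr hn with h1 | h1
  · exact lt_irrefl _ h1
  · exact ht h1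

theorem ex_lt {G : Game P} {p q : P} (h : ¬ G.al p) (hq : G.s p q) : Lt (rk G q) (rk G p) :=
  (ex_iff h _).mpr ⟨q, hq, le_rfl⟩

theorem al_ge {G : Game P} {p q : P} (h : G.al p) (hq : G.s p q) {β : W} (hβ : Lt β (rk G p)) :
    β ≤ rk G q := (al_iff h β).mp hβ q hq

theorem down (G : Game P) : ∀ (α : W) (p : P), rk G p = α → α ≠ ⊤ → ∀ β, β ≤ α →
    ∃ q, rk G q = β := by
  intro α
  induction α using WellFoundedLT.induction with
  | ind α ih =>
    intro p hp ht β hβ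
    rcases hβ.eq_or_lt with rfl | hβ
    · exact ⟨p, hp⟩
    have hb : Lt β (rk G p) := Or.inl (hp ▸ hβ)
    have : ∃ q, β ≤ rk G q ∧ rk G q < α := by
      by_cases h : G.al p
      · obtain ⟨q, hq, hlt⟩ := al_att h (hp ▸ ht)
        exact ⟨q, al_ge h hq hb, hp ▸ hlt⟩
      · obtain ⟨q, hq, hle⟩ := (ex_iff h β).mp hb
        refine ⟨q, hle, ?_⟩
        rcases ex_lt h hq with h1 | h1
        · exact hp ▸ h1
        · exact absurd (hp ▸ h1) ht
    obtain ⟨q, h1, h2⟩ := this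
    exact ih _ h2 q rfl (ne_top_of_lt h2) β h1

structure Pad (G : Game P) where
  pad : P → P
  top : P
  h1 : ∀ t, ¬ G.al (pad t)
  h2 : ∀ t u, G.s (pad t) u ↔ u = t
  h3 : ¬ G.al top
  h4 : G.s top top

theorem rk_top {G : Game P} (D : Pad G) : rk G D.top = ⊤ :=
  coind (fun p => p = D.top) (fun _ hp => Or.inr ⟨hp ▸ D.h3, D.top, hp ▸ D.h4, rfl⟩) rfl

theorem lt_pad {G : Game P} (D : Pad G) (t : P) (β : W) : Lt β (rk G (D.pad t)) ↔ β ≤ rk G t := by
  rw [ex_iff (D.h1 t)]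
  simp only [D.h2, exists_eq_left]

/-- goodness of a rank relative to a game -/
def Good (G : Game P) (ρ : W) : Prop := ∃ p, rk G p = ρ

theorem Good.top {G : Game P} (D : Pad G) : Good G ⊤ := ⟨_, rk_top D⟩

theorem Good.of_le {G : Game P} {ρ σ : W} (h : Good G σ) (ht : σ ≠ ⊤) (hle : ρ ≤ σ) :
    Good G ρ := by
  obtain ⟨p, hp⟩ := h
  exact down G σ p hp ht ρ hle

theorem pad_ne {G : Game P} (D : Pad G) {t : P} (ht : rk G t ≠ ⊤) : rk G (D.pad t) ≠ ⊤ :=
  fun h => ht (top_le_iff.mp ((lt_pad D t ⊤).mp (Or.inr h)))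

theorem Good.of_bd {G : Game P} (D : Pad G) {ρ σ : W} (h : Good G σ) (ht : σ ≠ ⊤)
    (hle : ∀ β, Lt β ρ → β ≤ σ) : Good G ρ := by
  obtain ⟨p, rfl⟩ := h
  exact Good.of_le ⟨D.pad p, rfl⟩ (pad_ne D ht) (le_of_Lt fun β hβ => (lt_pad D p β).mpr (hle β hβ))

theorem good_al {G : Game P} {G' : Game P'} (D : Pad G') {p : P} (h : G.al p)
    (hs : ∀ q, G.s p q → Good G' (rk G q)) : Good G' (rk G p) := by
  by_cases ht : rk G p = ⊤
  · exact ht ▸ Good.top D
  obtain ⟨q, hq, hlt⟩ := al_att h ht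
  exact Good.of_bd D (hs q hq) (ne_top_of_lt hlt) fun β hβ => al_ge h hq hβ

theorem good_ex {G : Game P} {G' : Game P'} (D : Pad G') {p : P} (h : ¬ G.al p) {σ : W}
    (hσ : Good G' σ) (ht : σ ≠ ⊤) (hs : ∀ q, G.s p q → rk G q ≤ σ) : Good G' (rk G p) :=
  Good.of_bd D hσ ht fun β hβ => by
    obtain ⟨q, hq, hle⟩ := (ex_iff h β).mp hβ
    exact hle.trans (hs q hq)

def stp {G : Game P} (D : Pad G) (r u : P) : Prop :=
  u = D.top ∨ (¬ G.al r ∧ u = r) ∨ (G.al r ∧ ∃ t, G.s r t ∧ u = D.pad t)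

theorem stp_ex {G : Game P} {D : Pad G} {r u : P} (h : stp D r u) : ¬ G.al u := by
  rcases h with rfl | ⟨h, rfl⟩ | ⟨-, t, -, rfl⟩
  exacts [D.h3, h, D.h1 t]

theorem stp_le {G : Game P} {D : Pad G} {r u : P} (h : stp D r u) : rk G r ≤ rk G u := by
  rcases h with rfl | ⟨h, rfl⟩ | ⟨h, t, ht, rfl⟩
  · rw [rk_top]; exact le_top
  · exact le_rfl
  · exact le_of_Lt fun β hβ => (lt_pad D t β).mpr (al_ge h ht hβ)

theorem stp_att {G : Game P} (D : Pad G) (r : P) : ∃ u, stp D r u ∧ rk G u = rk G r := by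
  by_cases ht : rk G r = ⊤
  · exact ⟨D.top, Or.inl rfl, by rw [ht, rk_top]⟩
  by_cases h : G.al r
  · obtain ⟨q, hq, hlt⟩ := al_att h ht
    have hs : stp D r (D.pad q) := Or.inr (Or.inr ⟨h, q, hq, rfl⟩)
    refine ⟨_, hs, le_antisymm (le_of_Lt fun β hβ => ?_) (stp_le hs)⟩
    exact Or.inl (((lt_pad D q β).mp hβ).trans_lt hlt)
  · exact ⟨r, Or.inr (Or.inl ⟨h, rfl⟩), rfl⟩

/-- transitions of the code system -/
def cs {G : Game P} (D : Pad G) (c d : Bool × P × P) : Prop :=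
  (c.1 = true ∧ d.1 = false ∧ (stp D c.2.1 d.2.1 ∨ stp D c.2.2 d.2.1) ∧ ¬ G.al d.2.2) ∨
  (c.1 = false ∧ d.1 = true ∧ (G.s c.2.1 d.2.1 ∨ G.s c.2.2 d.2.1))

noncomputable def cr (G : Game P) (c : Bool × P × P) : W :=
  if c.1 = true then min (rk G c.2.1) (rk G c.2.2) else max (rk G c.2.1) (rk G c.2.2)

def ok (G : Game P) (c : Bool × P × P) : Prop := c.1 = false → ¬ G.al c.2.1 ∧ ¬ G.al c.2.2

theorem cs_ok {G : Game P} {D : Pad G} {c d : Bool × P × P} (h : cs D c d) : ok G d := by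
  rcases h with ⟨-, -, h, h'⟩ | ⟨-, h, -⟩
  · exact fun _ => ⟨h.elim stp_ex stp_ex, h'⟩
  · intro h'; rw [h] at h'; cases h'

theorem cs_ne {G : Game P} {D : Pad G} {c d : Bool × P × P} (h : cs D c d) : d.1 = !c.1 := by
  rcases h with ⟨h1, h2, -⟩ | ⟨h1, h2, -⟩ <;> rw [h1, h2] <;> rfl

theorem cV_le {G : Game P} {D : Pad G} {c d : Bool × P × P} (hc : c.1 = true) (h : cs D c d) :
    cr G c ≤ cr G d := by
  rcases h with ⟨-, h2, h, -⟩ | ⟨h, -⟩
  · simp only [cr, hc, h2, if_true, Bool.false_eq_true, if_false]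
    refine le_trans ?_ (le_max_left _ _)
    exact h.elim (fun h => (min_le_left _ _).trans (stp_le h))
      fun h => (min_le_right _ _).trans (stp_le h)
  · rw [hc] at h; cases h

theorem cV_att {G : Game P} (D : Pad G) {c : Bool × P × P} (hc : c.1 = true) {γ : W}
    (hγ : Good G γ) (hle : cr G c ≤ γ) : ∃ d, cs D c d ∧ cr G d = γ := by
  obtain ⟨p, rfl⟩ := hγ
  obtain ⟨e, he, hr⟩ := stp_att D p
  have : ∃ u, (stp D c.2.1 u ∨ stp D c.2.2 u) ∧ rk G u = cr G c := by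
    simp only [cr, hc, if_true]
    rcases le_total (rk G c.2.1) (rk G c.2.2) with h | h
    · obtain ⟨u, hu, h'⟩ := stp_att D c.2.1
      exact ⟨u, Or.inl hu, by rw [h', min_eq_left h]⟩
    · obtain ⟨u, hu, h'⟩ := stp_att D c.2.2
      exact ⟨u, Or.inr hu, by rw [h', min_eq_right h]⟩
  obtain ⟨u, hu, h'⟩ := this
  refine ⟨(false, u, e), Or.inl ⟨hc, rfl, hu, stp_ex he⟩, ?_⟩
  simp only [cr, Bool.false_eq_true, if_false]
  rw [h', hr]
  exact max_eq_right hle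

theorem cE_lt {G : Game P} {D : Pad G} {c d : Bool × P × P} (hc : c.1 = false) (ho : ok G c)
    (h : cs D c d) : Lt (cr G d) (cr G c) := by
  rcases h with ⟨h, -⟩ | ⟨-, h2, h⟩
  · rw [hc] at h; cases h
  · simp only [cr, hc, h2, if_true, Bool.false_eq_true, if_false]
    exact h.elim (fun h => (ex_lt (ho hc).1 h).mono (min_le_left _ _) (le_max_left _ _))
      fun h => (ex_lt (ho hc).2 h).mono (min_le_left _ _) (le_max_right _ _)

theorem cE_att {G : Game P} (D : Pad G) {c : Bool × P × P} (hc : c.1 = false) (ho : ok G c)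
    {β : W} (hlt : Lt β (cr G c)) (p : P) :
    ∃ t, cs D c (true, t, p) ∧ β ≤ rk G t := by
  simp only [cr, hc, Bool.false_eq_true, if_false] at hlt
  rcases le_total (rk G c.2.1) (rk G c.2.2) with h | h
  · rw [max_eq_right h] at hlt
    obtain ⟨t, ht, hle⟩ := (ex_iff (ho hc).2 β).mp hlt
    exact ⟨t, Or.inr ⟨hc, rfl, Or.inr ht⟩, hle⟩
  · rw [max_eq_left h] at hlt
    obtain ⟨t, ht, hle⟩ := (ex_iff (ho hc).1 β).mp hlt
    exact ⟨t, Or.inr ⟨hc, rfl, Or.inl ht⟩, hle⟩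

theorem cr_good (G : Game P) (c : Bool × P × P) : ∃ p, rk G p = cr G c := by
  unfold cr
  split_ifs
  · rcases min_choice (rk G c.2.1) (rk G c.2.2) with h | h <;> exact ⟨_, h.symm⟩
  · rcases max_choice (rk G c.2.1) (rk G c.2.2) with h | h <;> exact ⟨_, h.symm⟩

def Zc (G : Game P) (G' : Game P') (c : Bool × P × P) (c' : Bool × P' × P') : Prop :=
  c.1 = c'.1 ∧ ok G c ∧ ok G' c' ∧ cr G c = cr G' c'

theorem Zc_forth {G : Game P} {G' : Game P'} (D : Pad G) (D' : Pad G')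
    (hG : ∀ p, Good G' (rk G p)) {c d : Bool × P × P} {c' : Bool × P' × P'}
    (h : Zc G G' c c') (hd : cs D c d) : ∃ d', cs D' c' d' ∧ Zc G G' d d' := by
  obtain ⟨h1, h2, h3, h4⟩ := h
  have hg : Good G' (cr G d) := by
    obtain ⟨p, hp⟩ := cr_good G d
    exact hp ▸ hG p
  cases hc : c.1 with
  | true =>
    obtain ⟨d', hd', hr⟩ := cV_att D' (h1 ▸ hc) hg (h4 ▸ cV_le hc hd)
    exact ⟨d', hd', by rw [cs_ne hd, cs_ne hd', h1], cs_ok hd, cs_ok hd', hr.symm⟩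
  | false =>
    obtain ⟨p', hp'⟩ := hg
    obtain ⟨t, ht, hle⟩ := cE_att D' (h1 ▸ hc) h3 (h4 ▸ cE_lt hc h2 hd) p'
    refine ⟨_, ht, by rw [cs_ne hd, cs_ne ht, h1], cs_ok hd, cs_ok ht, ?_⟩
    simp only [cr, if_true] at hp' hle ⊢
    rw [hp']
    exact (min_eq_right hle).symm

theorem status {G : Game P} {G' : Game P'} (D : Pad G) (D' : Pad G')
    (Y : Bool × P × P → Bool × P' × P' → Prop)
    (hf : ∀ c c', Y c c' → ∀ d, cs D c d → ∃ d', cs D' c' d' ∧ Y d d')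
    (hb : ∀ c c', Y c c' → ∀ d', cs D' c' d' → ∃ d, cs D c d ∧ Y d d')
    {c : Bool × P × P} {c' : Bool × P' × P'} (h : Y c c') (hc : c.1 = true) (hc' : c'.1 = true) :
    cr G' c' ≤ cr G c := by
  have key : ∀ α : Ordinal.{0}, ∀ c c', Y c c' → c.1 = true → c'.1 = true →
      (α : W) ≤ cr G' c' → (α : W) ≤ cr G c := by
    intro α
    induction α using WellFoundedLT.induction with
    | ind α ih =>
      intro c c' h hc hc' hα
      obtain ⟨d, hd, hr⟩ := cV_att D hc (cr_good G c) le_rfl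
      obtain ⟨d', hd', hY⟩ := hf c c' h d hd
      have e1 : d.1 = false := by rw [cs_ne hd, hc]; rfl
      have e2 : d'.1 = false := by rw [cs_ne hd', hc']; rfl
      rw [← hr]
      refine le_of_lt_imp fun β hβ => ?_
      obtain ⟨t, ht, hle⟩ := cE_att D' e2 (cs_ok hd')
        (lt_coe.mpr (hβ.trans_le (hα.trans (cV_le hc' hd')))) D'.top
      obtain ⟨v, hv, hY'⟩ := hb d d' hY _ ht
      have e3 : v.1 = true := by rw [cs_ne hv, e1]; rfl
      have := ih β (WithTop.coe_lt_coe.mp hβ) v _ hY' e3 rfl (by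
        simp only [cr, if_true, rk_top]
        exact le_min hle le_top)
      exact lt_coe.mp ((cE_lt e1 (cs_ok hd) hv).mono this le_rfl)
  exact le_of_le_imp fun α hα => key α c c' h hc hc' hα

end Pool.Agent.H.MP_387a72_lc
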