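import Mathlib

set_option autoImplicit false

namespace Pool.Agent.H.MP_387a72_lc
open Set

variable {α β γ : Type}

def PI [LE α] [LE β] (R : α → β → Prop) : Prop :=
  ∀ a b a' b', R a b → R a' b' → (a ≤ a' ↔ b ≤ b')

def CPI [LE α] [LE β] (R : α → β → Prop) : Prop :=
  PI R ∧ (∀ a b a' b' z, R a b → R a' b' → a ≤ z → z ≤ a' → ∃ w, R z w) ∧
    (∀ a b a' b' w, R a b → R a' b' → b ≤ w → w ≤ b' → ∃ z, R z w)

theorem CPI.flip [LE α] [LE β] {R : α → β → Prop} (h : CPI R) : CPI (fun b a => R a b) :=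
  ⟨fun _ _ _ _ h1 h2 => (h.1 _ _ _ _ h1 h2).symm,
    fun _ _ _ _ z h1 h2 h3 h4 => h.2.2 _ _ _ _ z h1 h2 h3 h4,
    fun _ _ _ _ z h1 h2 h3 h4 => h.2.1 _ _ _ _ z h1 h2 h3 h4⟩

theorem CPI.dual [LE α] [LE β] {R : α → β → Prop} (h : CPI R) :
    CPI (α := αᵒᵈ) (β := βᵒᵈ) R :=
  ⟨fun _ _ _ _ h1 h2 => h.1 _ _ _ _ h2 h1,
    fun _ _ _ _ z h1 h2 h3 h4 => h.2.1 _ _ _ _ z h2 h1 h4 h3,
    fun _ _ _ _ z h1 h2 h3 h4 => h.2.2 _ _ _ _ z h2 h1 h4 h3⟩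

theorem CPI.undual [LE α] [LE β] {R : α → β → Prop} (h : CPI (α := αᵒᵈ) (β := βᵒᵈ) R) :
    CPI R :=
  ⟨fun _ _ _ _ h1 h2 => h.1 _ _ _ _ h2 h1,
    fun _ _ _ _ z h1 h2 h3 h4 => h.2.1 _ _ _ _ z h2 h1 h4 h3,
    fun _ _ _ _ z h1 h2 h3 h4 => h.2.2 _ _ _ _ z h2 h1 h4 h3⟩

theorem CPI.comp [LE α] [LE β] [LE γ] {R : α → β → Prop} {S : β → γ → Prop} (h : CPI R)
    (h' : CPI S) : CPI (fun a c => ∃ b, R a b ∧ S b c) := by
  refine ⟨?_, ?_, ?_⟩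
  · rintro a c a' c' ⟨b, h1, h2⟩ ⟨b', h3, h4⟩
    exact (h.1 _ _ _ _ h1 h3).trans (h'.1 _ _ _ _ h2 h4)
  · rintro a c a' c' z ⟨b, h1, h2⟩ ⟨b', h3, h4⟩ h5 h6
    obtain ⟨w, hw⟩ := h.2.1 _ _ _ _ z h1 h3 h5 h6
    obtain ⟨v, hv⟩ := h'.2.1 _ _ _ _ w h2 h4 ((h.1 _ _ _ _ h1 hw).mp h5) ((h.1 _ _ _ _ hw h3).mp h6)
    exact ⟨v, w, hw, hv⟩
  · rintro a c a' c' z ⟨b, h1, h2⟩ ⟨b', h3, h4⟩ h5 h6
    obtain ⟨w, hw⟩ := h'.2.2 _ _ _ _ z h2 h4 h5 h6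
    obtain ⟨v, hv⟩ := h.2.2 _ _ _ _ w h1 h3 ((h'.1 _ _ _ _ h2 hw).mpr h5)
      ((h'.1 _ _ _ _ hw h4).mpr h6)
    exact ⟨v, w, hv, hw⟩

theorem CPI.restrict [LE α] [LE β] {R : α → β → Prop} (h : CPI R) (A : α → Prop)
    (hA : ∀ a a' z, A a → A a' → a ≤ z → z ≤ a' → A z) : CPI (fun a b => R a b ∧ A a) := by
  refine ⟨fun _ _ _ _ h1 h2 => h.1 _ _ _ _ h1.1 h2.1, ?_, ?_⟩
  · intro a b a' b' z h1 h2 h3 h4
    obtain ⟨w, hw⟩ := h.2.1 _ _ _ _ z h1.1 h2.1 h3 h4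
    exact ⟨w, hw, hA _ _ _ h1.2 h2.2 h3 h4⟩
  · intro a b a' b' w h1 h2 h3 h4
    obtain ⟨z, hz⟩ := h.2.2 _ _ _ _ w h1.1 h2.1 h3 h4
    exact ⟨z, hz, hA _ _ _ h1.2 h2.2 ((h.1 _ _ _ _ h1.1 hz).mpr h3) ((h.1 _ _ _ _ hz h2.1).mpr h4)⟩

theorem CPI.refl [LE α] : CPI (fun a b : α => a = b) :=
  ⟨by rintro _ _ _ _ rfl rfl; rfl, fun _ _ _ _ z _ _ _ _ => ⟨z, rfl⟩,
    fun _ _ _ _ z _ _ _ _ => ⟨z, rfl⟩⟩

variable [LinearOrder α] [LinearOrder β]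

theorem CPI.glue {R S : α → β → Prop} (h : CPI R) (h' : CPI S) {x : α} {x' : β} (hx : R x x')
    (hx' : S x x') (hR : ∀ a b, R a b → a ≤ x) (hS : ∀ a b, S a b → x ≤ a) :
    CPI (fun a b => R a b ∨ S a b) := by
  have hR' : ∀ a b, R a b → b ≤ x' := fun a b hab => (h.1 _ _ _ _ hab hx).mp (hR a b hab)
  have hS' : ∀ a b, S a b → x' ≤ b := fun a b hab => (h'.1 _ _ _ _ hx' hab).mp (hS a b hab)
  refine ⟨?_, ?_, ?_⟩
  · rintro a b a' b' (h1 | h1) (h2 | h2)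
    · exact h.1 _ _ _ _ h1 h2
    · exact iff_of_true ((hR _ _ h1).trans (hS _ _ h2)) ((hR' _ _ h1).trans (hS' _ _ h2))
    · constructor
      · intro hle
        exact ((h'.1 _ _ _ _ h1 hx').mp (hle.trans (hR _ _ h2))).trans
          ((h.1 _ _ _ _ hx h2).mp ((hS _ _ h1).trans hle))
      · intro hle
        exact ((h'.1 _ _ _ _ h1 hx').mpr (hle.trans (hR' _ _ h2))).trans
          ((h.1 _ _ _ _ hx h2).mpr ((hS' _ _ h1).trans hle))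
    · exact h'.1 _ _ _ _ h1 h2
  · intro a b a' b' z h1 h2 h3 h4
    rcases le_total z x with hz | hz
    · rcases h1 with h1 | h1
      · exact (h.2.1 _ _ _ _ z h1 hx h3 hz).imp fun _ => Or.inl
      · exact ⟨x', Or.inl (le_antisymm hz ((hS _ _ h1).trans h3) ▸ hx)⟩
    · rcases h2 with h2 | h2
      · exact ⟨x', Or.inl (le_antisymm (h4.trans (hR _ _ h2)) hz ▸ hx)⟩
      · exact (h'.2.1 _ _ _ _ z hx' h2 hz h4).imp fun _ => Or.inr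
  · intro a b a' b' z h1 h2 h3 h4
    rcases le_total z x' with hz | hz
    · rcases h1 with h1 | h1
      · exact (h.2.2 _ _ _ _ z h1 hx h3 hz).imp fun _ => Or.inl
      · exact ⟨x, Or.inl (le_antisymm hz ((hS' _ _ h1).trans h3) ▸ hx)⟩
    · rcases h2 with h2 | h2
      · exact ⟨x, Or.inl (le_antisymm (h4.trans (hR' _ _ h2)) hz ▸ hx)⟩
      · exact (h'.2.2 _ _ _ _ z hx' h2 hz h4).imp fun _ => Or.inr

theorem CPI.single (x : α) (x' : β) : CPI (fun a b => a = x ∧ b = x') := by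
  refine ⟨?_, ?_, ?_⟩
  · rintro _ _ _ _ ⟨rfl, rfl⟩ ⟨rfl, rfl⟩; simp
  · rintro _ _ _ _ z ⟨rfl, rfl⟩ ⟨rfl, rfl⟩ h1 h2; exact ⟨_, le_antisymm h2 h1, rfl⟩
  · rintro _ _ _ _ z ⟨rfl, rfl⟩ ⟨rfl, rfl⟩ h1 h2; exact ⟨_, rfl, le_antisymm h2 h1⟩

def II {α β : Type} [LE α] [LE β] (a b : α) (a' b' : β) : Prop := ∃ R : α → β → Prop, CPI R ∧ R a a' ∧ R b b'

def Em (x w : α) (x' y' : β) : Prop := ∃ c, x' ≤ c ∧ c ≤ y' ∧ II x w x' c

theorem Em.mono {x w : α} {x' y' z' : β} (h : Em x w x' y') (hle : y' ≤ z') : Em x w x' z' := by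
  obtain ⟨c, h1, h2, h3⟩ := h
  exact ⟨c, h1, h2.trans hle, h3⟩

theorem Em.trans {δ : Type} [LinearOrder δ] {x w : α} {x' y' : β} {x'' y'' : δ}
    (h : Em x w x' y') {R : β → δ → Prop} (hR : CPI R) (h1 : R x' x'') (h2 : R y' y'') :
    Em x w x'' y'' := by
  obtain ⟨c, h3, h4, S, hS, h5, h6⟩ := h
  obtain ⟨d, hd⟩ := hR.2.1 _ _ _ _ c h1 h2 h3 h4
  exact ⟨d, (hR.1 _ _ _ _ h1 hd).mp h3, (hR.1 _ _ _ _ hd h2).mp h4, _, hS.comp hR,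
    ⟨_, h5, h1⟩, ⟨_, h6, hd⟩⟩

def CritR (x : α) : Prop :=
  ∀ (x' : α) (J : Set α), (∀ y, x ≤ y → ∃ y' ∈ J, II x y x' y') →
    ∃ R : α → α → Prop, CPI R ∧ R x x' ∧ (∀ a b, R a b → x ≤ a ∧ ∃ j ∈ J, b ≤ j) ∧
      ∀ y, x ≤ y → ∃ y', R y y'

theorem critG {x : α} (hG : ∀ w, x ≤ w → ∃ y, x ≤ y ∧ ¬ Em x y x w) : CritR x := by
  intro x' J hJ
  let τ : α → Set α := fun y => {w | Em x w x y}
  let τ' : α → Set α := fun y => {w | Em x w x' y}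
  have h1 : ∀ D : Set α, ∃ (w w' : α) (φ : α → α → Prop), x ≤ w ∧ w' ∈ J ∧ CPI φ ∧ φ x x' ∧
      φ w w' ∧ ∀ y, x ≤ y → τ y = D → w ∉ D := by
    intro D
    by_cases hD : ∃ y, x ≤ y ∧ τ y = D
    · obtain ⟨y, hy, rfl⟩ := hD
      obtain ⟨w, hw, hn⟩ := hG y hy
      obtain ⟨w', hw', φ, h1, h2, h3⟩ := hJ w hw
      exact ⟨w, w', φ, hw, hw', h1, h2, h3, fun _ _ _ => hn⟩
    · obtain ⟨w', hw', φ, h1, h2, h3⟩ := hJ x le_rfl
      exact ⟨x, w', φ, le_rfl, hw', h1, h2, h3, fun y hy h => absurd ⟨y, hy, h⟩ hD⟩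
  choose w w' φ hw hw' hφ hx hww hn using h1
  have hτ : ∀ D y y', φ D y y' → τ' y' = τ y := by
    intro D y y' h
    ext u
    exact ⟨fun hu => Em.trans hu (hφ D).flip (hx D) h, fun hu => Em.trans hu (hφ D) (hx D) h⟩
  have hlt : ∀ y, x ≤ y → y ≤ w (τ y) := by
    intro y hy
    by_contra hc
    exact hn (τ y) y hy rfl ⟨w (τ y), hw _, (not_le.mp hc).le, _, CPI.refl, rfl, rfl⟩
  have htot : ∀ y, x ≤ y → ∃ y', x ≤ y ∧ φ (τ y) y y' := fun y hy =>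
    ((hφ _).2.1 _ _ _ _ y (hx _) (hww _) hy (hlt y hy)).imp fun _ h => ⟨hy, h⟩
  refine ⟨fun y y' => x ≤ y ∧ φ (τ y) y y', ⟨?_, ?_, ?_⟩, ⟨le_rfl, hx _⟩, ?_, htot⟩
  · rintro y y' z z' ⟨hy, h1⟩ ⟨hz, h2⟩
    by_cases he : τ y = τ z
    · exact (hφ _).1 _ _ _ _ (he ▸ h1) h2
    constructor
    · intro hle
      by_contra hc
      refine he (Subset.antisymm (fun u hu => Em.mono hu hle) ?_)
      rw [← hτ _ _ _ h1, ← hτ _ _ _ h2]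
      exact fun u hu => Em.mono hu (not_le.mp hc).le
    · intro hle
      by_contra hc
      refine he (Subset.antisymm ?_ (fun u hu => Em.mono hu (not_le.mp hc).le))
      rw [← hτ _ _ _ h1, ← hτ _ _ _ h2]
      exact fun u hu => Em.mono hu hle
  · rintro y y' z z' u ⟨hy, -⟩ - h3 -
    exact htot u (hy.trans h3)
  · rintro y y' z z' u ⟨hy, h1⟩ ⟨hz, h2⟩ h3 h4
    have hxu : x' ≤ u := (((hφ _).1 _ _ _ _ (hx _) h1).mp hy).trans h3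
    obtain ⟨v, hv⟩ := (hφ _).2.2 _ _ _ _ u (hx _) h2 hxu h4
    have hxv : x ≤ v := ((hφ _).1 _ _ _ _ (hx _) hv).mpr hxu
    have hu : u ≤ w' (τ v) := by
      by_contra hc
      have hmem : w (τ v) ∈ τ' u :=
        ⟨w' (τ v), ((hφ _).1 _ _ _ _ (hx _) (hww _)).mp (hw _), (not_le.mp hc).le, _, hφ _,
          hx _, hww _⟩
      rw [hτ _ _ _ hv] at hmem
      exact hn (τ v) v hxv rfl hmem
    obtain ⟨v', hv'⟩ := (hφ _).2.2 _ _ _ _ u (hx _) (hww _) hxu hu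
    have : τ v' = τ v := by rw [← hτ _ _ _ hv', hτ _ _ _ hv]
    exact ⟨v', ((hφ _).1 _ _ _ _ (hx _) hv').mpr hxu, this ▸ hv'⟩
  · rintro y y' ⟨hy, h1⟩
    exact ⟨hy, _, hw' _, ((hφ _).1 _ _ _ _ h1 (hww _)).mp (hlt y hy)⟩

theorem critB [Countable α] {x : α}
    (hB : ∀ z, x ≤ z → ∃ w, z ≤ w ∧ ∀ y, z ≤ y → Em z y z w) : CritR x := by
  intro x' J hJ
  haveI : Nonempty α := ⟨x⟩
  obtain ⟨u, hu⟩ := exists_surjective_nat α
  choose! tp htp htp' using hB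
  let a : ℕ → α := fun n => Nat.rec x (fun n t => max (tp t) (u n)) n
  have ha : ∀ n, a (n + 1) = max (tp (a n)) (u n) := fun n => rfl
  have hxa : ∀ n, x ≤ a n := by
    intro n
    induction n with
    | zero => exact le_rfl
    | succ n ih => exact ih.trans ((htp _ ih).trans (le_max_left _ _))
  have hmono : ∀ n, a n ≤ a (n + 1) := fun n => (htp _ (hxa n)).trans (le_max_left _ _)
  obtain ⟨c0, hc0, hI⟩ := hJ (a 1) (hxa 1)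
  let X : ℕ → (α → α → Prop) × α × α → Prop := fun n t =>
    CPI t.1 ∧ t.1 x x' ∧ t.1 (a n) t.2.1 ∧ (∀ p q, t.1 p q → x ≤ p ∧ p ≤ a n) ∧
      II (a n) (a (n + 1)) t.2.1 t.2.2 ∧ t.2.2 ≤ c0
  have hstep : ∀ n t, X n t → ∃ t', X (n + 1) t' ∧ ∀ p q, t.1 p q → t'.1 p q := by
    rintro n ⟨R, b, c⟩ ⟨h1, h2, h3, h4, ⟨T2, h5, h6, h7⟩, h8⟩
    have hE : Em (a n) (a (n + 2)) (a n) (a (n + 1)) :=
      (htp' _ (hxa n) _ ((hmono n).trans (hmono (n + 1)))).mono (le_max_left _ _)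
    obtain ⟨c', -, hc', T, hT, hT1, hT2⟩ := hE.trans h5 h6 h7
    obtain ⟨b', hb'⟩ := hT.2.1 _ _ _ _ (a (n + 1)) hT1 hT2 (hmono n) (hmono (n + 1))
    have hT' := hT.restrict (fun p => a n ≤ p ∧ p ≤ a (n + 1))
      fun _ _ _ h h' h1 h2 => ⟨h.1.trans h1, h2.trans h'.2⟩
    refine ⟨⟨fun p q => R p q ∨ (T p q ∧ a n ≤ p ∧ p ≤ a (n + 1)), b', c'⟩,
      ⟨h1.glue hT' h3 ⟨hT1, le_rfl, hmono n⟩ (fun p q h => (h4 p q h).2) fun p q h => h.2.1,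
        Or.inl h2, Or.inr ⟨hb', hmono n, le_rfl⟩, ?_, ⟨T, hT, hb', hT2⟩, hc'.trans h8⟩,
      fun p q h => Or.inl h⟩
    rintro p q (h | h)
    · exact ⟨(h4 p q h).1, (h4 p q h).2.trans (hmono n)⟩
    · exact ⟨(hxa n).trans h.2.1, h.2.2⟩
  choose! f hf hf' using hstep
  let t : ℕ → (α → α → Prop) × α × α := fun n =>
    Nat.rec (fun p q => p = x ∧ q = x', x', c0) (fun n t => f n t) n
  have hX : ∀ n, X n (t n) := by
    intro n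
    induction n with
    | zero =>
      refine ⟨CPI.single x x', ⟨rfl, rfl⟩, ⟨rfl, rfl⟩, ?_, hI, le_rfl⟩
      rintro p q ⟨rfl, -⟩
      exact ⟨le_rfl, le_rfl⟩
    | succ n ih => exact hf n _ ih
  have hm : ∀ n m, n ≤ m → ∀ p q, (t n).1 p q → (t m).1 p q := by
    intro n m h
    induction h with
    | refl => exact fun _ _ h => h
    | step _ ih => exact fun p q h => hf' _ _ (hX _) p q (ih p q h)
  refine ⟨fun p q => ∃ n, (t n).1 p q, ⟨?_, ?_, ?_⟩, ⟨0, rfl, rfl⟩, ?_, ?_⟩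
  · rintro p q p' q' ⟨n, h1⟩ ⟨m, h2⟩
    exact (hX (max n m)).1.1 _ _ _ _ (hm _ _ (le_max_left _ _) _ _ h1)
      (hm _ _ (le_max_right _ _) _ _ h2)
  · rintro p q p' q' z ⟨n, h1⟩ ⟨m, h2⟩ h3 h4
    exact ((hX (max n m)).1.2.1 _ _ _ _ z (hm _ _ (le_max_left _ _) _ _ h1)
      (hm _ _ (le_max_right _ _) _ _ h2) h3 h4).imp fun _ h => ⟨_, h⟩
  · rintro p q p' q' z ⟨n, h1⟩ ⟨m, h2⟩ h3 h4
    exact ((hX (max n m)).1.2.2 _ _ _ _ z (hm _ _ (le_max_left _ _) _ _ h1)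
      (hm _ _ (le_max_right _ _) _ _ h2) h3 h4).imp fun _ h => ⟨_, h⟩
  · rintro p q ⟨n, h⟩
    obtain ⟨h1, h2, h3, h4, ⟨T, h5, h6, h7⟩, h8⟩ := hX n
    exact ⟨(h4 p q h).1, c0, hc0, ((h1.1 _ _ _ _ h h3).mp (h4 p q h).2).trans
      (((h5.1 _ _ _ _ h6 h7).mp (hmono n)).trans h8)⟩
  · intro y hy
    obtain ⟨n, rfl⟩ := hu y
    obtain ⟨h1, h2, h3, -⟩ := hX (n + 1)
    exact (h1.2.1 _ _ _ _ _ h2 h3 hy (le_max_right _ _)).imp fun _ h => ⟨n + 1, h⟩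

theorem exists_critR [Countable α] (a : α) : ∃ x, a ≤ x ∧ CritR x := by
  by_cases h : ∀ z, a ≤ z → ∃ w, z ≤ w ∧ ∀ y, z ≤ y → Em z y z w
  · exact ⟨a, le_rfl, critB h⟩
  · push Not at h
    obtain ⟨z, hz, h⟩ := h
    exact ⟨z, hz, critG h⟩

def sle {α : Type} [LE α] (s : Bool) (a b : α) : Prop := (s = true → a ≤ b) ∧ (s = false → b ≤ a)

theorem sle_t {α : Type} [LE α] {a b : α} : sle true a b ↔ a ≤ b := by simp [sle]
theorem sle_f {α : Type} [LE α] {a b : α} : sle false a b ↔ b ≤ a := by simp [sle]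

theorem sle_refl (s : Bool) (a : α) : sle s a a := ⟨fun _ => le_rfl, fun _ => le_rfl⟩

theorem sle_trans {s : Bool} {a b c : α} (h : sle s a b) (h' : sle s b c) : sle s a c :=
  ⟨fun e => (h.1 e).trans (h'.1 e), fun e => (h'.2 e).trans (h.2 e)⟩

theorem sle_total (s : Bool) (a b : α) : sle s a b ∨ sle s b a := by
  cases s
  · simp only [sle_f]; exact le_total _ _
  · simp only [sle_t]; exact le_total _ _

theorem PI.sle {R : α → β → Prop} (h : PI R) (s : Bool) {a a' : α} {b b' : β} (h1 : R a b)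
    (h2 : R a' b') : sle s a a' ↔ sle s b b' := by
  cases s
  · simp only [sle_f]; exact h _ _ _ _ h2 h1
  · simp only [sle_t]; exact h _ _ _ _ h1 h2

theorem CPI.sfwd {R : α → β → Prop} (h : CPI R) (s : Bool) {a a' z : α} {b b' : β} (h1 : R a b)
    (h2 : R a' b') (h3 : sle s a z) (h4 : sle s z a') : ∃ w, R z w := by
  cases s
  · exact h.2.1 _ _ _ _ z h2 h1 (sle_f.mp h4) (sle_f.mp h3)
  · exact h.2.1 _ _ _ _ z h1 h2 (sle_t.mp h3) (sle_t.mp h4)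

def Crit (s : Bool) (x : α) : Prop :=
  ∀ (x' : α) (J : Set α), (∀ y, sle s x y → ∃ y' ∈ J, II x y x' y') →
    ∃ R : α → α → Prop, CPI R ∧ R x x' ∧ (∀ a b, R a b → sle s x a ∧ ∃ j ∈ J, sle s b j) ∧
      ∀ y, sle s x y → ∃ y', R y y'

theorem exists_crit [Countable α] (s : Bool) (a : α) : ∃ x, sle s a x ∧ Crit s x := by
  cases s
  · haveI : Countable αᵒᵈ := (inferInstance : Countable α)
    obtain ⟨x, hx, h⟩ := exists_critR (α := αᵒᵈ) a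
    refine ⟨x, sle_f.mpr hx, fun x' J hJ => ?_⟩
    obtain ⟨R, h1, h2, h3, h4⟩ := h x' J fun y hy => by
      obtain ⟨y', hy', R, h1, h2⟩ := hJ y (sle_f.mpr hy)
      exact ⟨y', hy', R, h1.dual, h2⟩
    refine ⟨R, CPI.undual (α := α) (β := α) h1, h2, fun a b hab => ?_, fun y hy => h4 y (sle_f.mp hy)⟩
    obtain ⟨h5, j, hj, h6⟩ := h3 a b hab
    exact ⟨(sle_f (α := α)).mpr h5, j, hj, (sle_f (α := α)).mpr h6⟩
  · obtain ⟨x, hx, h⟩ := exists_critR a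
    refine ⟨x, sle_t.mpr hx, fun x' J hJ => ?_⟩
    obtain ⟨R, h1, h2, h3, h4⟩ := h x' J fun y hy => hJ y (sle_t.mpr hy)
    refine ⟨R, h1, h2, fun a b hab => ?_, fun y hy => h4 y (sle_t.mp hy)⟩
    obtain ⟨h5, j, hj, h6⟩ := h3 a b hab
    exact ⟨sle_t.mpr h5, j, hj, sle_t.mpr h6⟩

theorem bf {α β : Type} [Countable α] [Countable β] (A : Set α) (B : Set β)
    (X : List (α × β) → Prop) (l0 : List (α × β)) (h0 : X l0)
    (hl : ∀ l, X l → ∀ a ∈ A, ∃ b, X ((a, b) :: l))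
    (hr : ∀ l, X l → ∀ b ∈ B, ∃ a, X ((a, b) :: l)) :
    ∃ R : α → β → Prop, (∀ p ∈ l0, R p.1 p.2) ∧ (∀ a ∈ A, ∃ b, R a b) ∧ (∀ b ∈ B, ∃ a, R a b) ∧
      ∀ a b a' b', R a b → R a' b' → ∃ l, X l ∧ (a, b) ∈ l ∧ (a', b') ∈ l := by
  obtain ⟨u, hu⟩ := exists_surjective_nat (Option (α ⊕ β))
  have hs : ∀ (n : ℕ) l, X l → ∃ l', X l' ∧ l ⊆ l' ∧
      (∀ a ∈ A, u n = some (Sum.inl a) → ∃ b, (a, b) ∈ l') ∧
      (∀ b ∈ B, u n = some (Sum.inr b) → ∃ a, (a, b) ∈ l') := by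
    intro n l h
    by_cases h1 : ∃ a ∈ A, u n = some (Sum.inl a)
    · obtain ⟨a, ha, he⟩ := h1
      obtain ⟨b, hb⟩ := hl l h a ha
      refine ⟨_, hb, List.subset_cons_self _ _, fun a' _ h' => ⟨b, ?_⟩, fun b' _ h' => ?_⟩
      · rw [he] at h'
        cases h'
        exact List.mem_cons_self
      · rw [he] at h'
        cases h'
    by_cases h2 : ∃ b ∈ B, u n = some (Sum.inr b)
    · obtain ⟨b, hb, he⟩ := h2
      obtain ⟨a, ha⟩ := hr l h b hb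
      refine ⟨_, ha, List.subset_cons_self _ _, fun a' ha' h' => absurd ⟨a', ha', h'⟩ h1,
        fun b' _ h' => ⟨a, ?_⟩⟩
      rw [he] at h'
      cases h'
      exact List.mem_cons_self
    · exact ⟨l, h, fun _ h => h, fun a' ha' h' => absurd ⟨a', ha', h'⟩ h1,
        fun a' ha' h' => absurd ⟨a', ha', h'⟩ h2⟩
  choose! f hf1 hf2 hf3 hf4 using hs
  let c : ℕ → List (α × β) := fun n => Nat.rec l0 (fun n t => f n t) n
  have hX : ∀ n, X (c n) := by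
    intro n
    induction n with
    | zero => exact h0
    | succ n ih => exact hf1 n _ ih
  have hm : ∀ n m, n ≤ m → c n ⊆ c m := by
    intro n m h
    induction h with
    | refl => exact fun _ h => h
    | step _ ih => exact fun p h => hf2 _ _ (hX _) (ih h)
  refine ⟨fun a b => ∃ n, (a, b) ∈ c n, fun p hp => ⟨0, hp⟩, fun a ha => ?_, fun b hb => ?_, ?_⟩
  · obtain ⟨n, hn⟩ := hu (some (Sum.inl a))
    exact (hf3 n _ (hX n) a ha hn).imp fun b h => ⟨n + 1, h⟩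
  · obtain ⟨n, hn⟩ := hu (some (Sum.inr b))
    exact (hf4 n _ (hX n) b hb hn).imp fun b h => ⟨n + 1, h⟩
  · rintro a b a' b' ⟨n, h1⟩ ⟨m, h2⟩
    exact ⟨_, hX (max n m), hm _ _ (le_max_left _ _) h1, hm _ _ (le_max_right _ _) h2⟩

end Pool.Agent.H.MP_387a72_lc
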