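import Pool.Agent.H63.CB.C

set_option autoImplicit false

namespace Pool.Agent.H.MP_387a72_lc
open Set

variable {α β : Type} [LinearOrder α] [LinearOrder β]

def Comp (α : Type) [LE α] (s : Bool) : Prop :=
  ∃ (T : α → α → Prop) (e : α), CPI T ∧ Tot T ∧ ∀ a b, T a b → ¬ sle s e b

theorem Tot.comp {α β γ : Type} {R : α → β → Prop} {S : β → γ → Prop} (h : Tot R) (h' : Tot S) :
    Tot (fun a c => ∃ b, R a b ∧ S b c) := fun a => by
  obtain ⟨b, hb⟩ := h a
  obtain ⟨c, hc⟩ := h' b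
  exact ⟨c, b, hb, hc⟩

theorem comp_transfer {R : α → β → Prop} {S : β → α → Prop} (h1 : CPI R) (h2 : CPI S)
    (t1 : Tot R) (t2 : Tot S) {s : Bool} (h : Comp α s) : Comp β s := by
  obtain ⟨T, e, h3, t3, h4⟩ := h
  obtain ⟨e', he⟩ := t1 e
  refine ⟨_, e', (h2.comp h3).comp h1, (t2.comp t3).comp t1, ?_⟩
  rintro a b ⟨c, ⟨d, -, h5⟩, h6⟩ h7
  exact h4 _ _ h5 ((h1.1.sle s he h6).mpr h7)

theorem fix {R : α → β → Prop} {S : β → α → Prop} (h1 : CPI R) (h2 : CPI S)
    (t1 : Tot R) (t2 : Tot S) {s : Bool} (h : ¬ Comp α s) {a : α} {c : β} (hac : R a c) (d : β)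
    (hd : sle s c d) : ∃ y, R y d := by
  by_contra hn
  obtain ⟨e, he⟩ := t2 d
  refine h ⟨_, e, h1.comp h2, t1.comp t2, ?_⟩
  rintro u v ⟨w, h3, h4⟩ h5
  exact hn (h1.flip.sfwd s hac h3 hd ((h2.1.sle s he h4).mpr h5))

theorem comp_both (h : ∀ s, Comp α s) : ∃ (T : α → α → Prop) (e : Bool → α), CPI T ∧ Tot T ∧
    ∀ s a b, T a b → ¬ sle s (e s) b := by
  obtain ⟨T, e, h1, t1, h2⟩ := h true
  obtain ⟨T', e', h3, t2, h4⟩ := h false
  obtain ⟨e'', he⟩ := t2 e
  refine ⟨_, fun s => if s = true then e'' else e', h1.comp h3, t1.comp t2, ?_⟩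
  rintro s a b ⟨c, h5, h6⟩
  cases s
  · exact h4 _ _ h6
  · exact fun h7 => h2 _ _ h5 ((h3.1.sle true he h6).mpr h7)

theorem wit_top {T : α → α → Prop} (hT : CPI T) (t : Tot T) {x x' : Bool → α}
    {m : Bool → Option (Option α)} (hx : ∀ s, T (x s) (x' s))
    (h1 : ∀ s e, m s = some (some e) → ∀ a b, T a b → ¬ sle s e b)
    (h2 : ∀ s, m s = some none → rt α (K.A (!s)) = ⊤)
    (h3 : (∀ t, ∃ e, m t = some (some e)) → ∀ s, rt α (K.A s) = ⊤) :
    r (Pos.wit x x' m) = ⊤ := by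
  have hi : ∀ {a b a' b' : α}, T a a' → T b b' → r (Pos.iso [(a, a'), (b, b')]) = ⊤ := by
    intro a b a' b' e1 e2
    refine iso_top hT fun p hp => ?_
    simp only [List.mem_cons, List.not_mem_nil, or_false] at hp
    rcases hp with rfl | rfl <;> assumption
  refine (al_top (G := GG α) (p := Pos.wit x x' m) trivial).mpr ?_
  rintro q (rfl | ⟨s, y, μ, h4, h5, rfl⟩ | ⟨h4, s, rfl⟩)
  · exact hi (hx _) (hx _)
  · obtain ⟨y', hy⟩ := t y
    refine (ex_top (G := GG α) (p := Pos.emb s (x s) y (x' s) μ) fun h => h).mpr ?_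
    cases μ with
    | some e =>
      exact ⟨_, Or.inl ⟨y', (hT.1.sle s (hx s) hy).mp h5, Or.inl ⟨e, rfl, h1 s e h4 _ _ hy, rfl⟩⟩,
        hi (hx s) hy⟩
    | none =>
      refine ⟨_, Or.inl ⟨y', (hT.1.sle s (hx s) hy).mp h5, Or.inr ⟨rfl, rfl⟩⟩, ?_⟩
      refine (al_top (G := GG α) (p := Pos.and _ _) trivial).mpr ?_
      rintro q (rfl | rfl)
      exacts [hi (hx s) hy, h2 s h4]
  · exact h3 h4 s

theorem root_top {k : K} (h : ∀ x : Bool → α, r (Pos.ex k x) = ⊤) : rt α k = ⊤ := by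
  refine (al_top (G := GG α) (p := Pos.root k) trivial).mpr ?_
  rintro q ⟨x, -, rfl⟩
  exact h x

theorem exA_top {s : Bool} (h : Comp α s) (x : Bool → α) : r (Pos.ex (K.A s) x) = ⊤ := by
  obtain ⟨T, e, h1, t, h2⟩ := h
  choose f hf using t
  refine (ex_top (G := GG α) (p := Pos.ex _ x) fun h => h).mpr
    ⟨_, ⟨fun t => f (x t), fun t => if t = s then some (some e) else none,
      ⟨⟨e, by simp⟩, by simp⟩, rfl⟩, wit_top h1 (fun a => ⟨_, hf a⟩) (fun s => hf _) ?_ ?_ ?_⟩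
  · intro t e' h
    split_ifs at h with h3
    cases h
    exact h3 ▸ h2
  · intro t h
    split_ifs at h
    cases h
  · intro h
    obtain ⟨e', h⟩ := h (!s)
    simp at h

theorem exC_top (h : ∀ s, Comp α s) (x : Bool → α) : r (Pos.ex K.C x) = ⊤ := by
  obtain ⟨T, e, h1, t, h2⟩ := comp_both h
  choose f hf using t
  refine (ex_top (G := GG α) (p := Pos.ex _ x) fun h => h).mpr
    ⟨_, ⟨fun t => f (x t), fun t => some (some (e t)), fun t => ⟨_, rfl⟩, rfl⟩,
      wit_top h1 (fun a => ⟨_, hf a⟩) (fun s => hf _) ?_ ?_ fun _ s => root_top (exA_top (h s))⟩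
  · intro t e' h
    cases h
    exact h2 t
  · intro t h
    cases h

theorem exD_top {s : Bool} (h : Comp α s) (x : Bool → α) : r (Pos.ex K.D x) = ⊤ := by
  have hA := root_top (exA_top h)
  obtain ⟨T, e, h1, t, h2⟩ := h
  choose f hf using t
  refine (ex_top (G := GG α) (p := Pos.ex _ x) fun h => h).mpr
    ⟨_, ⟨fun t => f (x t), fun t => if t = s then some (some e) else some none,
      ⟨s, ⟨e, by simp⟩, by simp⟩, rfl⟩, wit_top h1 (fun a => ⟨_, hf a⟩) (fun s => hf _) ?_ ?_ ?_⟩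
  · intro t e' h
    split_ifs at h with h3
    · cases h
      exact h3 ▸ h2
    · cases h
  · intro t h
    split_ifs at h with h3
    · cases h
    · have : (!t) = s := by cases s <;> cases t <;> simp_all
      exact this ▸ hA
  · intro h
    obtain ⟨e', h⟩ := h (!s)
    simp at h

theorem wit_sound [Countable α] {x x' : Bool → α} {m : Bool → Option (Option α)}
    (h : r (Pos.wit x x' m) = ⊤) (hx : x false ≤ x true) (hc : ∀ s, m s ≠ none → Crit s (x s))
    (hC : ∀ s, m s = some none → rt α K.C ≠ ⊤) :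
    ∃ R : α → α → Prop, CPI R ∧ (∀ z, (∀ s, m s = none → sle s z (x s)) → ∃ w, R z w) ∧
      ∀ s e, m s = some (some e) → ∀ a b, R a b → ¬ sle s e b := by
  have h' := (al_top (G := GG α) (p := Pos.wit x x' m) trivial).mp h
  obtain ⟨M, hM, m1, m2⟩ := iso2_sound (h' _ (Or.inl rfl))
  have hx' : x' false ≤ x' true := (hM.1 _ _ _ _ m1 m2).mp hx
  have hside : ∀ s, ∃ R : α → α → Prop, CPI R ∧ R (x s) (x' s) ∧ (∀ a b, R a b → sle s (x s) a) ∧
      (m s ≠ none → ∀ y, sle s (x s) y → ∃ y', R y y') ∧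
      ∀ e, m s = some (some e) → ∀ a b, R a b → ¬ sle s e b := by
    intro s
    cases hm : m s with
    | none =>
      refine ⟨_, CPI.single (x s) (x' s), ⟨rfl, rfl⟩, ?_, fun h => absurd rfl h, fun e h => ?_⟩
      · rintro _ _ ⟨rfl, -⟩
        exact sle_refl _ _
      · cases h
    | some μ =>
      obtain ⟨R, h1, h2, h3, h4⟩ := hc s (by simp [hm]) (x' s)
        {j | ∀ e, μ = some e → ¬ sle s e j} fun y hy => by
          obtain ⟨q, hq, ht⟩ := (ex_top (G := GG α) (p := Pos.emb s (x s) y (x' s) μ)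
            fun h => h).mp (h' _ (Or.inr (Or.inl ⟨s, y, μ, hm, hy, rfl⟩)))
          rcases hq with ⟨y', -, ⟨e, rfl, hn, rfl⟩ | ⟨rfl, rfl⟩⟩ | ⟨rfl, rfl⟩
          · exact ⟨y', fun e' he => by cases he; exact hn, iso2_sound ht⟩
          · exact ⟨y', (fun e' he => by cases he), iso2_sound
              ((al_top (G := GG α) (p := Pos.and _ _) trivial).mp ht _ (Or.inl rfl))⟩
          · exact absurd ht (hC s hm)
      refine ⟨R, h1, h2, fun a b h => (h3 a b h).1, fun _ => h4, fun e he a b hab hn => ?_⟩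
      obtain ⟨-, j, hj, h5⟩ := h3 a b hab
      cases he
      exact hj e rfl (sle_trans hn h5)
  obtain ⟨L, l1, l2, l3, l4, l5⟩ := hside false
  obtain ⟨R, r1, r2, r3, r4, r5⟩ := hside true
  have hM' := hM.restrict (fun p => x false ≤ p ∧ p ≤ x true)
    fun _ _ _ h h' h1 h2 => ⟨h.1.trans h1, h2.trans h'.2⟩
  have g1 := l1.glue hM' l2 ⟨m1, le_rfl, hx⟩ (fun a b h => sle_f.mp (l3 a b h)) fun a b h => h.2.1
  have g2 := g1.glue r1 (Or.inr ⟨m2, hx, le_rfl⟩) r2
    (fun a b h => h.elim (fun h => (sle_f.mp (l3 a b h)).trans hx) fun h => h.2.2)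
    fun a b h => sle_t.mp (r3 a b h)
  refine ⟨_, g2, fun z hz => ?_, fun s e he a b hab hn => ?_⟩
  · rcases le_total z (x false) with h1 | h1
    · by_cases hm : m false = none
      · exact ⟨_, Or.inl (Or.inl (le_antisymm h1 (sle_f.mp (hz _ hm)) ▸ l2))⟩
      · exact (l4 hm z (sle_f.mpr h1)).imp fun _ h => Or.inl (Or.inl h)
    rcases le_total z (x true) with h2 | h2
    · exact (hM.2.1 _ _ _ _ z m1 m2 h1 h2).imp fun _ h => Or.inl (Or.inr ⟨h, h1, h2⟩)
    · by_cases hm : m true = none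
      · exact ⟨_, Or.inr (le_antisymm (sle_t.mp (hz _ hm)) h2 ▸ r2)⟩
      · exact (r4 hm z (sle_t.mpr h2)).imp fun _ h => Or.inr h
  · cases s
    · rcases le_total a (x false) with h1 | h1
      · obtain ⟨w, hw⟩ := l4 (by simp [he]) a (sle_f.mpr h1)
        exact l5 e he a w hw (sle_f.mpr
          (((g2.1 _ _ _ _ (Or.inl (Or.inl hw)) hab).mp le_rfl).trans (sle_f.mp hn)))
      · exact l5 e he _ _ l2 (sle_f.mpr
          (((g2.1 _ _ _ _ (Or.inl (Or.inl l2)) hab).mp h1).trans (sle_f.mp hn)))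
    · rcases le_total a (x true) with h1 | h1
      · exact r5 e he _ _ r2 (sle_t.mpr
          ((sle_t.mp hn).trans ((g2.1 _ _ _ _ hab (Or.inr r2)).mp h1)))
      · obtain ⟨w, hw⟩ := r4 (by simp [he]) a (sle_t.mpr h1)
        exact r5 e he a w hw (sle_t.mpr
          ((sle_t.mp hn).trans ((g2.1 _ _ _ _ hab (Or.inr hw)).mp le_rfl)))

theorem root_wit {k : K} (h : rt α k = ⊤) {x : Bool → α} (hx : x false ≤ x true) :
    ∃ x' m, okm k m ∧ r (Pos.wit x x' m) = ⊤ := by
  obtain ⟨_, ⟨x', m, h1, rfl⟩, h2⟩ := (ex_top (G := GG α) (p := Pos.ex k x) fun h => h).mp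
    ((al_top (G := GG α) (p := Pos.root k) trivial).mp h _ ⟨x, hx, rfl⟩)
  exact ⟨x', m, h1, h2⟩

theorem soundA [Countable α] {s : Bool} (h : rt α (K.A s) = ⊤) (h' : Comp α (!s)) : Comp α s := by
  obtain ⟨T, e, h1, t, h2⟩ := h'
  obtain ⟨c, hc, hcr⟩ := exists_crit s e
  obtain ⟨x', m, ⟨⟨b, hb⟩, hm⟩, hw⟩ := root_wit h (x := fun t => if t = s then c else e)
    (by cases s
        · simpa using sle_f.mp hc
        · simpa using sle_t.mp hc)
  obtain ⟨R, r1, r2, r3⟩ := wit_sound hw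
    (by cases s
        · simpa using sle_f.mp hc
        · simpa using sle_t.mp hc)
    (fun t ht => by
      have : t = s := by cases s <;> cases t <;> simp_all
      subst this
      simpa using hcr)
    (fun t ht => by cases s <;> cases t <;> simp_all)
  refine ⟨_, b, h1.comp r1, fun a => ?_, ?_⟩
  · obtain ⟨z, hz⟩ := t a
    obtain ⟨w, hw⟩ := r2 z fun t ht => by
      have : t = !s := by cases s <;> cases t <;> simp_all
      subst this
      simpa using (sle_total _ _ _).resolve_left (h2 _ _ hz)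
    exact ⟨w, z, hz, hw⟩
  · rintro u v ⟨w, -, h3⟩
    exact r3 s b hb _ _ h3

theorem crit2 [Countable α] [Nonempty α] :
    ∃ x : Bool → α, x false ≤ x true ∧ ∀ s, Crit s (x s) := by
  obtain ⟨a⟩ := (inferInstance : Nonempty α)
  choose x h1 h2 using fun s => exists_crit s a
  exact ⟨x, (sle_f.mp (h1 false)).trans (sle_t.mp (h1 true)), h2⟩

theorem soundC [Countable α] [Nonempty α] (h : rt α K.C = ⊤) (s : Bool) : Comp α s := by
  obtain ⟨x, hx, hc⟩ := crit2 (α := α)
  obtain ⟨x', m, hm, hw⟩ := root_wit h hx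
  obtain ⟨R, r1, r2, r3⟩ := wit_sound hw hx (fun t _ => hc t) fun t ht => by
    obtain ⟨e, he⟩ := hm t
    simp_all
  obtain ⟨e, he⟩ := hm s
  refine ⟨R, e, r1, fun a => r2 a fun t ht => ?_, r3 s e he⟩
  obtain ⟨e, he⟩ := hm t
  simp_all

theorem soundD [Countable α] [Nonempty α] (h : rt α K.D = ⊤) : ∃ s, Comp α s := by
  by_cases hC : rt α K.C = ⊤
  · exact ⟨true, soundC hC true⟩
  obtain ⟨x, hx, hc⟩ := crit2 (α := α)
  obtain ⟨x', m, ⟨s, ⟨e, he⟩, hm⟩, hw⟩ := root_wit h hx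
  obtain ⟨R, r1, r2, r3⟩ := wit_sound hw hx (fun t _ => hc t) fun _ _ => hC
  refine ⟨s, R, e, r1, fun a => r2 a fun t ht => ?_, r3 s e he⟩
  cases s <;> cases t <;> simp_all

theorem both_of {s : Bool} (h1 : Comp α s) (h2 : Comp α (!s)) (t : Bool) : Comp α t := by
  cases s <;> cases t <;> assumption

theorem good [Countable α] [Nonempty α] {R : α → β → Prop} {S : β → α → Prop} (h1 : CPI R)
    (h2 : CPI S) (t1 : Tot R) (t2 : Tot S) (p : Pos α) : Good (GG β) (r p) := by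
  have hrt : ∀ k, rt α k = rt β k := fun k =>
    le_antisymm (root_le h1 h2 t1 t2 k) (root_le h2 h1 t2 t1 k)
  have groot : ∀ k, Good (GG β) (rt α k) := fun k => ⟨_, (hrt k).symm⟩
  have gtop : ∀ p : Pos α, r p = ⊤ → Good (GG β) (r p) := fun p h => ⟨_, (rk_top (DD β)).trans h.symm⟩
  choose f hf using id t1
  have hF : ∀ l : List (α × α), F (fun _ => R) l (l.map fun p => (f p.1, f p.2)) := by
    intro l
    induction l with
    | nil => exact F.nil _
    | cons p l ih => exact ih.cons fun s => by cases s <;> exact hf _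
  have giso : ∀ l : List (α × α), Good (GG β) (r (Pos.iso l)) := fun l =>
    ⟨_, le_antisymm (iso_sim (fun _ => h1.flip) (Or.inl ⟨_, _, rfl, rfl, (hF l).flip⟩))
      (iso_sim (fun _ => h1) (Or.inl ⟨_, _, rfl, rfl, hF l⟩))⟩
  have gemb : ∀ s (x y x' : α) μ, Good (GG β) (r (Pos.emb s x y x' μ)) := by
    intro s x y x' μ
    cases μ with
    | some e =>
      exact ⟨_, le_antisymm
        (emb_le h1.flip h1.flip (hf x) (hf y) (hf x') (Or.inl ⟨_, _, rfl, rfl, hf e⟩))
        (emb_le h1 h1 (hf x) (hf y) (hf x') (Or.inl ⟨_, _, rfl, rfl, hf e⟩))⟩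
    | none =>
      by_cases hc : Comp α s
      · by_cases hC : rt α K.C = ⊤
        · exact gtop _ ((ex_top (G := GG α) (p := Pos.emb s x y x' none) fun h => h).mpr
            ⟨_, Or.inr ⟨rfl, rfl⟩, hC⟩)
        have hA : rt α (K.A (!s)) ≠ ⊤ := fun h =>
          hC (root_top (exC_top (both_of hc (soundA h (by simpa using hc)))))
        have hA' : rt β (K.A (!s)) ≠ ⊤ := hrt _ ▸ hA
        have hp := pad_ne (DD β) hA'
        refine good_ex (DD β) (p := Pos.emb s x y x' none) (fun h => h)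
          (σ := max (r (Pos.pad (Pos.root (K.A (!s))) : Pos β)) (rt α K.C)) ?_ ?_ ?_
        · rcases max_choice (r (Pos.pad (Pos.root (K.A (!s))) : Pos β)) (rt α K.C) with h | h
          · exact ⟨_, h.symm⟩
          · rw [h]; exact groot _
        · exact (max_lt (lt_top_iff_ne_top.mpr hp) (lt_top_iff_ne_top.mpr hC)).ne
        · rintro q (⟨y', -, ⟨e, h, -⟩ | ⟨-, rfl⟩⟩ | ⟨-, rfl⟩)
          · cases h
          · refine le_trans (le_of_Lt fun b hb => (lt_pad (DD β) _ b).mpr ?_) (le_max_left _ _)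
            exact (al_ge (G := GG α) (p := Pos.and _ _) trivial (Or.inr rfl) hb).trans (hrt _).le
          · exact le_max_right _ _
      · exact ⟨_, le_antisymm
          (emb_le h1.flip h1.flip (hf x) (hf y) (hf x') (Or.inr ⟨rfl, rfl,
            fun d hd => fix h1 h2 t1 t2 hc (hf x') d hd, (hrt _).ge, (hrt _).ge⟩))
          (emb_le h1 h1 (hf x) (hf y) (hf x') (Or.inr ⟨rfl, rfl, fun y _ => t1 y, (hrt _).le,
            (hrt _).le⟩))⟩
  induction p with
  | top => exact gtop _ (rk_top (DD α))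
  | bot => exact ⟨_, le_antisymm bot_le' bot_le'⟩
  | pad p ih =>
    by_cases hp : r p = ⊤
    · exact gtop _ ((ex_top (G := GG α) (p := Pos.pad p) fun h => h).mpr ⟨p, rfl, hp⟩)
    · refine good_ex (DD β) (p := Pos.pad p) (fun h => h) ih hp ?_
      rintro q rfl
      exact le_rfl
  | and p q ih ih' =>
    refine good_al (DD β) (p := Pos.and p q) trivial ?_
    rintro _ (rfl | rfl) <;> assumption
  | iso l => exact giso l
  | ch l s z =>
    exact ⟨_, le_antisymm
      (iso_sim (fun _ => h1.flip) (Or.inr ⟨_, _, _, _, _, rfl, rfl, (hF l).flip, hf z⟩))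
      (iso_sim (fun _ => h1) (Or.inr ⟨_, _, _, _, _, rfl, rfl, hF l, hf z⟩))⟩
  | emb s x y x' μ => exact gemb s x y x' μ
  | wit x x' m =>
    refine good_al (DD β) (p := Pos.wit x x' m) trivial ?_
    rintro q (rfl | ⟨s, y, μ, -, -, rfl⟩ | ⟨-, s, rfl⟩)
    exacts [giso _, gemb _ _ _ _ _, groot _]
  | root k => exact groot k
  | ex k x =>
    have key : (∀ s, k ≠ K.A (!s) → ¬ Comp α s) → Good (GG β) (r (Pos.ex k x)) := fun h =>
      ⟨_, le_antisymm
        (exk_le h1.flip h2 t2 (fun s => hf (x s)) (fun s _ d _ => t1 d) (fun _ s => (hrt _).ge)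
          fun _ => (hrt _).ge)
        (exk_le h1 h1 t1 (fun s => hf (x s))
          (fun s hs d hd => fix h1 h2 t1 t2 (h s hs) (hf _) d hd) (fun _ s => (hrt _).le)
          fun _ => (hrt _).le)⟩
    cases k with
    | A s =>
      by_cases hc : Comp α s
      · exact gtop _ (exA_top hc x)
      · refine key fun t ht => ?_
        have : t = s := by cases s <;> cases t <;> simp_all
        exact this ▸ hc
    | D =>
      by_cases hc : ∃ s, Comp α s
      · obtain ⟨s, hc⟩ := hc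
        exact gtop _ (exD_top hc x)
      · exact key fun t _ ht => hc ⟨t, ht⟩
    | C =>
      by_cases hc : ∃ s, Comp α s
      · obtain ⟨s, hc⟩ := hc
        by_cases hA : rt α (K.A (!s)) = ⊤
        · exact gtop _ (exC_top (both_of hc (soundA hA (by simpa using hc))) x)
        have hA' : rt β (K.A (!s)) ≠ ⊤ := hrt _ ▸ hA
        refine good_ex (DD β) (p := Pos.ex K.C x) (fun h => h) ⟨_, rfl⟩ (pad_ne (DD β) hA') ?_
        rintro q ⟨x', m, hm, rfl⟩
        refine le_of_Lt fun b hb => (lt_pad (DD β) _ b).mpr ?_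
        exact (al_ge (G := GG α) (p := Pos.wit x x' m) trivial
          (Or.inr (Or.inr ⟨hm, _, rfl⟩)) hb).trans (hrt _).le
      · exact key fun t _ ht => hc ⟨t, ht⟩

end Pool.Agent.H.MP_387a72_lc
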