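import Pool.Agent.H63.CB.D

set_option autoImplicit false

namespace Pool.Agent.H.MP_387a72_lc
open Set

/-- A labelled transition system. -/
structure LTS (σ : Type) where
  lab : σ → ℕ
  ch : σ → σ → Prop

def IsBis {σ τ : Type} (L : LTS σ) (M : LTS τ) (Y : σ → τ → Prop) : Prop :=
  ∀ a b, Y a b → L.lab a = M.lab b ∧ (∀ a', L.ch a a' → ∃ b', M.ch b b' ∧ Y a' b') ∧
    (∀ b', M.ch b b' → ∃ a', L.ch a a' ∧ Y a' b')

def Bis {σ τ : Type} (L : LTS σ) (M : LTS τ) (a : σ) (b : τ) : Prop :=
  ∃ Y : σ → τ → Prop, IsBis L M Y ∧ Y a b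

inductive St (α : Type)
  | dead
  | root
  | code (c : Bool × Pos α × Pos α)
  | gd (κ : Option K)
  | side (i : Bool) (κ : Option K) (v : Bool)
  | hb (i : Bool) (κ : Option K) (v : Bool)
  | row (κ : Option K) (a : α) (l : List α)
  | mat (κ : Option K) (l : List α)
  | tup (κ : Option K) (w : Bool → Option α) (l : List α)
  deriving Countable

def kn : Option K → ℕ
  | none => 0
  | some (K.A false) => 1
  | some (K.A true) => 2
  | some K.C => 3
  | some K.D => 4

theorem kn_inj {κ κ' : Option K} (h : kn κ = kn κ') : κ = κ' := by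
  rcases κ with _ | (_ | _) | _ | _ <;> rcases κ' with _ | (_ | _) | _ | _ <;> simp_all [kn]

variable {α β : Type}

/-- windows -/
def okw [LE α] (κ : Option K) (w : Bool → Option α) : Prop :=
  match κ with
  | none => ∃ x y, x ≤ y ∧ w false = some x ∧ w true = some y
  | some (K.A s) => w s = none ∧ ∃ x, w (!s) = some x
  | some K.C => False
  | some K.D => ∀ s, w s = none

def InW [LE α] (w : Bool → Option α) (z : α) : Prop := ∀ s e, w s = some e → sle s z e

def gp (κ : Option K) : Pos α :=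
  match κ with
  | none => Pos.bot
  | some k => Pos.root k

def cd (κ : Option K) (v : Bool) : Bool × Pos α × Pos α :=
  (true, (if v = true then gp κ else Pos.top), Pos.top)

def slab : St α → ℕ
  | .dead => 0
  | .root => 1
  | .code c => if c.1 = true then 2 else 3
  | .gd κ => 10 + kn κ
  | .tup κ _ _ => 20 + kn κ
  | .side i _ _ => if i = true then 30 else 31
  | .hb i _ _ => if i = true then 32 else 33
  | .row _ _ _ => 34
  | .mat _ _ => 35

def sch [LE α] : St α → St α → Prop
  | .root, q => (∃ κ, q = .gd κ) ∨ (∃ κ w, okw κ w ∧ q = .tup κ w [])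
  | .code c, q => ∃ d, cs (DD α) c d ∧ q = .code d
  | .gd κ, q => q = .code (cd κ true)
  | .side _ κ v, q => q = .code (cd κ v)
  | .hb _ κ v, q => q = .side false κ v ∨ q = .side true κ (!v)
  | .row _ _ [], _ => False
  | .row κ a (b :: l), q => (∃ v, (v = true ↔ a ≤ b) ∧ q = .hb false κ v) ∨
      (∃ v, (v = true ↔ b ≤ a) ∧ q = .hb true κ v) ∨ q = .row κ a l
  | .mat _ [], _ => False
  | .mat κ (a :: l), q => q = .row κ a l ∨ q = .mat κ l
  | .tup κ w l, q => q = .mat κ l ∨ ∃ a, InW w a ∧ q = .tup κ w (a :: l)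
  | .dead, _ => False

def LT (α : Type) [LE α] : LTS (St α) := ⟨slab, sch⟩

noncomputable def rg (α : Type) [LE α] (κ : Option K) : W := r (gp κ : Pos α)

variable [LinearOrder α] [LinearOrder β]

theorem cr_cd (κ : Option K) (v : Bool) :
    cr (GG α) (cd κ v) = if v = true then rg α κ else ⊤ := by
  have h : rk (GG α) Pos.top = ⊤ := rk_top (DD α)
  cases v <;> simp [cr, cd, rg, r, h]

theorem ok_cd (κ : Option K) (v : Bool) : ok (GG α) (cd κ v) := by
  intro h
  simp [cd] at h

def WIso (P : α → β → Prop) (w : Bool → Option α) (w' : Bool → Option β) : Prop :=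
  (∀ z, InW w z → ∃ z', P z z' ∧ InW w' z') ∧ (∀ z', InW w' z' → ∃ z, P z z' ∧ InW w z)

def Yr : St α → St β → Prop
  | .root, .root => True
  | .dead, .dead => True
  | .code c, .code c' => Zc (GG α) (GG β) c c'
  | .gd κ, .gd κ' => κ = κ'
  | .side i κ v, .side i' κ' v' => i = i' ∧ κ = κ' ∧ (v = v' ∨ rg α κ = ⊤)
  | .hb i κ v, .hb i' κ' v' => i = i' ∧ κ = κ' ∧ (v = v' ∨ rg α κ = ⊤)
  | .row κ a l, .row κ' a' l' => κ = κ' ∧ l.length = l'.length ∧
      (rg α κ = ⊤ ∨ ∃ P : α → β → Prop, PI P ∧ P a a' ∧ List.Forall₂ P l l')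
  | .mat κ l, .mat κ' l' => κ = κ' ∧ l.length = l'.length ∧
      (rg α κ = ⊤ ∨ ∃ P : α → β → Prop, PI P ∧ List.Forall₂ P l l')
  | .tup κ w l, .tup κ' w' l' => κ = κ' ∧ l.length = l'.length ∧ okw κ w ∧ okw κ w' ∧
      (rg α κ = ⊤ ∨ ∃ P : α → β → Prop, PI P ∧ WIso P w w' ∧ List.Forall₂ P l l')
  | _, _ => False

theorem rg_none_ne : rg α none ≠ ⊤ := bot_ne

theorem rg_eq {R : α → β → Prop} {S : β → α → Prop} (h1 : CPI R) (h2 : CPI S) (t1 : Tot R)
    (t2 : Tot S) (κ : Option K) : rg α κ = rg β κ := by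
  cases κ with
  | none => exact le_antisymm bot_le' bot_le'
  | some k => exact le_antisymm (root_le h1 h2 t1 t2 k) (root_le h2 h1 t2 t1 k)

theorem inW_exists [Nonempty α] {κ : Option K} {w : Bool → Option α} (h : okw κ w) :
    ∃ a, InW w a := by
  rcases κ with _ | (_ | _ | _)
  · obtain ⟨x, y, hxy, h1, h2⟩ := h
    refine ⟨x, fun s e he => ?_⟩
    cases s
    · rw [h1] at he; cases he; exact sle_refl _ _
    · rw [h2] at he; cases he; exact sle_t.mpr hxy
  · rename_i s
    obtain ⟨h1, x, h2⟩ := h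
    refine ⟨x, fun t e he => ?_⟩
    by_cases ht : t = s
    · subst ht; rw [h1] at he; cases he
    · have : t = !s := by cases s <;> cases t <;> simp_all
      subst this
      rw [h2] at he; cases he; exact sle_refl _ _
  · exact h.elim
  · obtain ⟨a⟩ := (inferInstance : Nonempty α)
    exact ⟨a, fun s e he => by rw [h s] at he; cases he⟩

theorem okw_exists [Nonempty α] {κ : Option K} (h : κ ≠ some K.C) :
    ∃ w : Bool → Option α, okw κ w := by
  obtain ⟨a⟩ := (inferInstance : Nonempty α)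
  rcases κ with _ | (s | _ | _)
  · exact ⟨fun _ => some a, a, a, le_rfl, rfl, rfl⟩
  · exact ⟨fun t => if t = s then none else some a, by simp, a, by simp⟩
  · exact absurd rfl h
  · exact ⟨fun _ => none, fun _ => rfl⟩

/-- the root step: windows of `α` are matched in `β`. -/
theorem win_step {R : α → β → Prop} {S : β → α → Prop} (h1 : CPI R) (h2 : CPI S)
    (t1 : Tot R) (t2 : Tot S) [Nonempty β] {κ : Option K} {w : Bool → Option α} (h : okw κ w) :
    ∃ w' : Bool → Option β, okw κ w' ∧
      (rg α κ = ⊤ ∨ ∃ P : α → β → Prop, PI P ∧ WIso P w w') := by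
  by_cases ht : rg α κ = ⊤
  · obtain ⟨w', hw'⟩ := okw_exists (α := β) (κ := κ) (by rintro rfl; exact h.elim)
    exact ⟨w', hw', Or.inl ht⟩
  choose f hf using id t1
  have key : ∀ s, w s = none → ¬ Comp α s := by
    intro s hs hc
    rcases κ with _ | (t | _ | _)
    · obtain ⟨x, y, -, e1, e2⟩ := h
      cases s
      · rw [e1] at hs; cases hs
      · rw [e2] at hs; cases hs
    · obtain ⟨e1, x, e2⟩ := h
      have : s = t := by
        by_contra hne
        have : s = !t := by cases s <;> cases t <;> simp_all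
        subst this
        rw [e2] at hs; cases hs
      subst this
      exact ht (root_top (exA_top hc))
    · exact h.elim
    · exact ht (root_top (exD_top hc))
  refine ⟨fun s => (w s).map f, ?_, Or.inr ⟨R, h1.1, ?_, ?_⟩⟩
  · rcases κ with _ | (t | _ | _)
    · obtain ⟨x, y, hxy, e1, e2⟩ := h
      exact ⟨f x, f y, (h1.1 _ _ _ _ (hf x) (hf y)).mp hxy, by simp [e1], by simp [e2]⟩
    · obtain ⟨e1, x, e2⟩ := h
      exact ⟨by simp [e1], f x, by simp [e2]⟩
    · exact h.elim
    · intro s
      simp [h s]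
  · intro z hz
    refine ⟨f z, hf z, fun s e he => ?_⟩
    obtain ⟨e', he', rfl⟩ := Option.map_eq_some_iff.mp he
    exact (h1.1.sle s (hf z) (hf e')).mp (hz s e' he')
  · intro z' hz'
    -- find a preimage
    have hpre : ∃ z, R z z' := by
      -- a point in the window of `β` which is in the range
      obtain ⟨c⟩ : Nonempty α := ⟨(t2 z').choose⟩
      by_cases hlo : sle false (f c) z'
      · cases hw : w false with
        | none => exact fix h1 h2 t1 t2 (key false hw) (hf c) z' hlo
        | some x =>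
          have hx := hz' false (f x) (by simp [hw])
          exact h1.2.2 _ _ _ _ z' (hf x) (hf c) (sle_f.mp hx) (sle_f.mp hlo)
      · have hlo' : sle true (f c) z' := by
          rcases le_total (f c) z' with h | h
          · exact sle_t.mpr h
          · exact absurd (sle_f.mpr h) hlo
        cases hw : w true with
        | none => exact fix h1 h2 t1 t2 (key true hw) (hf c) z' hlo'
        | some x =>
          have hx := hz' true (f x) (by simp [hw])
          exact h1.2.2 _ _ _ _ z' (hf c) (hf x) (sle_t.mp hlo') (sle_t.mp hx)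
    obtain ⟨z, hz⟩ := hpre
    refine ⟨z, hz, fun s e he => ?_⟩
    exact (h1.1.sle s hz (hf e)).mpr (hz' s (f e) (by simp [he]))

theorem Zc_symm {P P' : Type} {G : Game P} {G' : Game P'} {c : Bool × P × P} {c' : Bool × P' × P'}
    (h : Zc G G' c c') : Zc G' G c' c := ⟨h.1.symm, h.2.2.1, h.2.1, h.2.2.2.symm⟩

theorem Zc_cd {κ : Option K} (hr : rg α κ = rg β κ) {v v' : Bool} (h : v = v' ∨ rg α κ = ⊤) :
    Zc (GG α) (GG β) (cd κ v) (cd κ v') := by
  refine ⟨rfl, ok_cd _ _, ok_cd _ _, ?_⟩
  rw [cr_cd, cr_cd, ← hr]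
  rcases h with rfl | h
  · rfl
  · rw [h]; simp

theorem Forall2.flip' {P : α → β → Prop} {l : List α} {l' : List β} (h : List.Forall₂ P l l') :
    List.Forall₂ (fun b a => P a b) l' l := List.Forall₂.flip h

theorem isBis [Countable α] [Countable β] [Nonempty α] [Nonempty β]
    {R : α → β → Prop} {S : β → α → Prop} (h1 : CPI R) (h2 : CPI S)
    (t1 : Tot R) (t2 : Tot S) : IsBis (LT α) (LT β) Yr := by
  have hrg : ∀ κ, rg α κ = rg β κ := rg_eq h1 h2 t1 t2
  have hga : ∀ p : Pos α, Good (GG β) (rk (GG α) p) := good h1 h2 t1 t2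
  have hgb : ∀ p : Pos β, Good (GG α) (rk (GG β) p) := good h2 h1 t2 t1
  intro a b hab
  cases a with
  | dead =>
    cases b with
    | dead => exact ⟨rfl, fun _ h => h.elim, fun _ h => h.elim⟩
    | _ => exact hab.elim
  | root =>
    cases b with
    | root =>
      refine ⟨rfl, ?_, ?_⟩
      · rintro a' (⟨κ, rfl⟩ | ⟨κ, w, hw, rfl⟩)
        · exact ⟨.gd κ, Or.inl ⟨κ, rfl⟩, rfl⟩
        · obtain ⟨w', hw', h⟩ := win_step h1 h2 t1 t2 hw
          exact ⟨.tup κ w' [], Or.inr ⟨κ, w', hw', rfl⟩, rfl, rfl, hw, hw',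
            h.imp_right fun ⟨P, hP, hW⟩ => ⟨P, hP, hW, List.Forall₂.nil⟩⟩
      · rintro a' (⟨κ, rfl⟩ | ⟨κ, w, hw, rfl⟩)
        · exact ⟨.gd κ, Or.inl ⟨κ, rfl⟩, rfl⟩
        · obtain ⟨w', hw', h⟩ := win_step h2 h1 t2 t1 hw
          refine ⟨.tup κ w' [], Or.inr ⟨κ, w', hw', rfl⟩, rfl, rfl, hw', hw,
            h.imp (fun h => (hrg κ).trans h) fun ⟨P, hP, hW⟩ => ⟨fun a b => P b a, ?_, ?_, List.Forall₂.nil⟩⟩
          · exact fun _ _ _ _ h1 h2 => (hP _ _ _ _ h1 h2).symm
          · exact ⟨hW.2, hW.1⟩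
    | _ => exact hab.elim
  | code c =>
    cases b with
    | code c' =>
      refine ⟨?_, ?_, ?_⟩
      · show (if c.1 = true then 2 else 3) = if c'.1 = true then 2 else 3
        rw [hab.1]
      · rintro a' ⟨d, hd, rfl⟩
        obtain ⟨d', hd', hz⟩ := Zc_forth (DD α) (DD β) hga hab hd
        exact ⟨_, ⟨d', hd', rfl⟩, hz⟩
      · rintro a' ⟨d, hd, rfl⟩
        obtain ⟨d', hd', hz⟩ := Zc_forth (DD β) (DD α) hgb (Zc_symm hab) hd
        exact ⟨_, ⟨d', hd', rfl⟩, Zc_symm hz⟩
    | _ => exact hab.elim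
  | gd κ =>
    cases b with
    | gd κ' =>
      obtain rfl : κ = κ' := hab
      refine ⟨rfl, ?_, ?_⟩
      · rintro _ rfl
        exact ⟨_, rfl, Zc_cd (hrg κ) (Or.inl rfl)⟩
      · rintro _ rfl
        exact ⟨_, rfl, Zc_cd (hrg κ) (Or.inl rfl)⟩
    | _ => exact hab.elim
  | side i κ v =>
    cases b with
    | side i' κ' v' =>
      obtain ⟨rfl, rfl, hv⟩ := hab
      refine ⟨rfl, ?_, ?_⟩
      · rintro _ rfl
        exact ⟨_, rfl, Zc_cd (hrg κ) hv⟩
      · rintro _ rfl
        exact ⟨_, rfl, Zc_cd (hrg κ) hv⟩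
    | _ => exact hab.elim
  | hb i κ v =>
    cases b with
    | hb i' κ' v' =>
      obtain ⟨rfl, rfl, hv⟩ := hab
      have hv' : (!v) = (!v') ∨ rg α κ = ⊤ := hv.imp_left (congrArg _)
      refine ⟨rfl, ?_, ?_⟩
      · rintro _ (rfl | rfl)
        · exact ⟨_, Or.inl rfl, rfl, rfl, hv⟩
        · exact ⟨_, Or.inr rfl, rfl, rfl, hv'⟩
      · rintro _ (rfl | rfl)
        · exact ⟨_, Or.inl rfl, rfl, rfl, hv⟩
        · exact ⟨_, Or.inr rfl, rfl, rfl, hv'⟩
    | _ => exact hab.elim
  | row κ a l =>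
    cases b with
    | row κ' a' l' =>
      obtain ⟨rfl, hl, hP⟩ := hab
      refine ⟨rfl, ?_, ?_⟩
      · cases l with
        | nil => exact fun _ h => h.elim
        | cons b l =>
          cases l' with
          | nil => cases hl
          | cons b' l' =>
            have hl' : l.length = l'.length := by simpa using hl
            rintro _ (⟨v, hv, rfl⟩ | ⟨v, hv, rfl⟩ | rfl)
            · rcases hP with ht | ⟨P, hP, haa, hF⟩
              · classical
                exact ⟨_, Or.inl ⟨decide (a' ≤ b'), by simp, rfl⟩, rfl, rfl, Or.inr ht⟩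
              · refine ⟨_, Or.inl ⟨v, ?_, rfl⟩, rfl, rfl, Or.inl rfl⟩
                cases hF with
                | cons hbb _ => rw [hv]; exact hP _ _ _ _ haa hbb
            · rcases hP with ht | ⟨P, hP, haa, hF⟩
              · classical
                exact ⟨_, Or.inr (Or.inl ⟨decide (b' ≤ a'), by simp, rfl⟩), rfl, rfl, Or.inr ht⟩
              · refine ⟨_, Or.inr (Or.inl ⟨v, ?_, rfl⟩), rfl, rfl, Or.inl rfl⟩
                cases hF with
                | cons hbb _ => rw [hv]; exact hP _ _ _ _ hbb haa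
            · refine ⟨_, Or.inr (Or.inr rfl), rfl, hl', hP.imp_right ?_⟩
              rintro ⟨P, hP, haa, hF⟩
              cases hF with
              | cons hbb hF => exact ⟨P, hP, haa, hF⟩
      · cases l' with
        | nil => exact fun _ h => h.elim
        | cons b' l' =>
          cases l with
          | nil => cases hl
          | cons b l =>
            have hl' : l.length = l'.length := by simpa using hl
            rintro _ (⟨v, hv, rfl⟩ | ⟨v, hv, rfl⟩ | rfl)
            · rcases hP with ht | ⟨P, hP, haa, hF⟩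
              · classical
                exact ⟨_, Or.inl ⟨decide (a ≤ b), by simp, rfl⟩, rfl, rfl, Or.inr ht⟩
              · refine ⟨_, Or.inl ⟨v, ?_, rfl⟩, rfl, rfl, Or.inl rfl⟩
                cases hF with
                | cons hbb _ => rw [hv]; exact (hP _ _ _ _ haa hbb).symm
            · rcases hP with ht | ⟨P, hP, haa, hF⟩
              · classical
                exact ⟨_, Or.inr (Or.inl ⟨decide (b ≤ a), by simp, rfl⟩), rfl, rfl, Or.inr ht⟩
              · refine ⟨_, Or.inr (Or.inl ⟨v, ?_, rfl⟩), rfl, rfl, Or.inl rfl⟩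
                cases hF with
                | cons hbb _ => rw [hv]; exact (hP _ _ _ _ hbb haa).symm
            · refine ⟨_, Or.inr (Or.inr rfl), rfl, hl', hP.imp_right ?_⟩
              rintro ⟨P, hP, haa, hF⟩
              cases hF with
              | cons hbb hF => exact ⟨P, hP, haa, hF⟩
    | _ => exact hab.elim
  | mat κ l =>
    cases b with
    | mat κ' l' =>
      obtain ⟨rfl, hl, hP⟩ := hab
      refine ⟨rfl, ?_, ?_⟩
      · cases l with
        | nil => exact fun _ h => h.elim
        | cons b l =>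
          cases l' with
          | nil => cases hl
          | cons b' l' =>
            have hl' : l.length = l'.length := by simpa using hl
            have hP' : rg α κ = ⊤ ∨ ∃ P : α → β → Prop, PI P ∧ P b b' ∧ List.Forall₂ P l l' :=
              hP.imp_right fun ⟨P, hP, hF⟩ => by
                cases hF with
                | cons hbb hF => exact ⟨P, hP, hbb, hF⟩
            rintro _ (rfl | rfl)
            · exact ⟨_, Or.inl rfl, rfl, hl', hP'⟩
            · exact ⟨_, Or.inr rfl, rfl, hl', hP'.imp_right fun ⟨P, h, _, h'⟩ => ⟨P, h, h'⟩⟩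
      · cases l' with
        | nil => exact fun _ h => h.elim
        | cons b' l' =>
          cases l with
          | nil => cases hl
          | cons b l =>
            have hl' : l.length = l'.length := by simpa using hl
            have hP' : rg α κ = ⊤ ∨ ∃ P : α → β → Prop, PI P ∧ P b b' ∧ List.Forall₂ P l l' :=
              hP.imp_right fun ⟨P, hP, hF⟩ => by
                cases hF with
                | cons hbb hF => exact ⟨P, hP, hbb, hF⟩
            rintro _ (rfl | rfl)
            · exact ⟨_, Or.inl rfl, rfl, hl', hP'⟩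
            · exact ⟨_, Or.inr rfl, rfl, hl', hP'.imp_right fun ⟨P, h, _, h'⟩ => ⟨P, h, h'⟩⟩
    | _ => exact hab.elim
  | tup κ w l =>
    cases b with
    | tup κ' w' l' =>
      obtain ⟨rfl, hl, hw, hw', hP⟩ := hab
      refine ⟨rfl, ?_, ?_⟩
      · rintro _ (rfl | ⟨a, ha, rfl⟩)
        · exact ⟨_, Or.inl rfl, rfl, hl, hP.imp_right fun ⟨P, h, _, h'⟩ => ⟨P, h, h'⟩⟩
        · rcases hP with ht | ⟨P, hP, hW, hF⟩
          · obtain ⟨a', ha'⟩ := inW_exists hw'
            exact ⟨_, Or.inr ⟨a', ha', rfl⟩, rfl, by simp [hl], hw, hw', Or.inl ht⟩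
          · obtain ⟨a', haa, ha'⟩ := hW.1 a ha
            exact ⟨_, Or.inr ⟨a', ha', rfl⟩, rfl, by simp [hl], hw, hw',
              Or.inr ⟨P, hP, hW, List.Forall₂.cons haa hF⟩⟩
      · rintro _ (rfl | ⟨a', ha', rfl⟩)
        · exact ⟨_, Or.inl rfl, rfl, hl, hP.imp_right fun ⟨P, h, _, h'⟩ => ⟨P, h, h'⟩⟩
        · rcases hP with ht | ⟨P, hP, hW, hF⟩
          · obtain ⟨a, ha⟩ := inW_exists hw
            exact ⟨_, Or.inr ⟨a, ha, rfl⟩, rfl, by simp [hl], hw, hw', Or.inl ht⟩
          · obtain ⟨a, haa, ha⟩ := hW.2 a' ha'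
            exact ⟨_, Or.inr ⟨a, ha, rfl⟩, rfl, by simp [hl], hw, hw',
              Or.inr ⟨P, hP, hW, List.Forall₂.cons haa hF⟩⟩
    | _ => exact hab.elim

theorem bis_of_biemb [Countable α] [Countable β] [Nonempty α] [Nonempty β]
    {R : α → β → Prop} {S : β → α → Prop} (h1 : CPI R) (h2 : CPI S)
    (t1 : Tot R) (t2 : Tot S) : Bis (LT α) (LT β) .root .root :=
  ⟨Yr, isBis h1 h2 t1 t2, trivial⟩

end Pool.Agent.H.MP_387a72_lc
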