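import Pool.Agent.H63.CB.E

set_option autoImplicit false

namespace Pool.Agent.H.MP_387a72_lc
open Set

variable {α β : Type} [LinearOrder α] [LinearOrder β]

theorem IsBis.flip {σ τ : Type} {L : LTS σ} {M : LTS τ} {Y : σ → τ → Prop} (h : IsBis L M Y) :
    IsBis M L (fun b a => Y a b) := fun b a hab =>
  ⟨(h a b hab).1.symm, (h a b hab).2.2, (h a b hab).2.1⟩

theorem code_le {Y : St α → St β → Prop} (hY : IsBis (LT α) (LT β) Y)
    {c : Bool × Pos α × Pos α} {c' : Bool × Pos β × Pos β} (h : Y (.code c) (.code c'))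
    (hc : c.1 = true) (hc' : c'.1 = true) : cr (GG β) c' ≤ cr (GG α) c := by
  refine status (DD α) (DD β) (fun c c' => Y (.code c) (.code c')) ?_ ?_ h hc hc'
  · intro c c' h d hd
    obtain ⟨b', ⟨d', hd', rfl⟩, h'⟩ := (hY _ _ h).2.1 (.code d) ⟨d, hd, rfl⟩
    exact ⟨d', hd', h'⟩
  · intro c c' h d hd
    obtain ⟨b', ⟨d', hd', rfl⟩, h'⟩ := (hY _ _ h).2.2 (.code d) ⟨d, hd, rfl⟩
    exact ⟨d', hd', h'⟩

theorem code_eq {Y : St α → St β → Prop} (hY : IsBis (LT α) (LT β) Y)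
    {c : Bool × Pos α × Pos α} {c' : Bool × Pos β × Pos β} (h : Y (.code c) (.code c'))
    (hc : c.1 = true) (hc' : c'.1 = true) : cr (GG α) c = cr (GG β) c' :=
  le_antisymm (code_le hY.flip h hc' hc) (code_le hY h hc hc')

theorem kn_le (κ : Option K) : kn κ ≤ 4 := by
  rcases κ with _ | (_ | _) | _ | _ <;> simp [kn]

theorem gd_eq {Y : St α → St β → Prop} (hY : IsBis (LT α) (LT β) Y) (h : Y .root .root)
    (κ : Option K) : rg α κ = rg β κ := by
  obtain ⟨b', hb', h'⟩ := (hY _ _ h).2.1 (.gd κ) (Or.inl ⟨κ, rfl⟩)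
  have hl := (hY _ _ h').1
  rcases hb' with ⟨κ', rfl⟩ | ⟨κ', w, hw, rfl⟩
  · have : κ = κ' := kn_inj (by
      have : 10 + kn κ = 10 + kn κ' := hl
      omega)
    subst this
    obtain ⟨_, rfl, h''⟩ := (hY _ _ h').2.1 _ rfl
    have := code_eq hY h'' rfl rfl
    rwa [cr_cd, cr_cd, if_pos rfl, if_pos rfl] at this
  · have h1 : 10 + kn κ = 20 + kn κ' := hl
    have := kn_le κ
    omega

theorem hb_eq {Y : St α → St β → Prop} (hY : IsBis (LT α) (LT β) Y) (h : Y .root .root)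
    {i : Bool} {κ : Option K} {v v' : Bool} (h' : Y (.hb i κ v) (.hb i κ v'))
    (hr : rg α κ ≠ ⊤) : v = v' := by
  obtain ⟨_, (rfl | rfl), h2⟩ := (hY _ _ h').2.1 (.side false κ v) (Or.inl rfl)
  · obtain ⟨_, rfl, h''⟩ := (hY _ _ h2).2.1 _ rfl
    have h3 := code_eq hY h'' rfl rfl
    rw [cr_cd, cr_cd, ← gd_eq hY h κ] at h3
    cases v <;> cases v'
    · rfl
    · simp at h3; exact absurd h3.symm hr
    · simp at h3; exact absurd h3 hr
    · rfl
  · have := (hY _ _ h2).1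
    simp [LT, slab] at this

theorem row_eq {Y : St α → St β → Prop} (hY : IsBis (LT α) (LT β) Y) (h : Y .root .root)
    {κ : Option K} (hr : rg α κ ≠ ⊤) {a : α} {a' : β} (l : List (α × β))
    (h' : Y (.row κ a (l.map Prod.fst)) (.row κ a' (l.map Prod.snd))) :
    ∀ q ∈ l, (a ≤ q.1 ↔ a' ≤ q.2) ∧ (q.1 ≤ a ↔ q.2 ≤ a') := by
  classical
  induction l with
  | nil => intro q hq; cases hq
  | cons p l ih =>
    have e1 : (LT α).ch (.row κ a ((p :: l).map Prod.fst)) (.hb false κ (decide (a ≤ p.1))) :=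
      Or.inl ⟨_, by simp, rfl⟩
    have e2 : (LT α).ch (.row κ a ((p :: l).map Prod.fst)) (.hb true κ (decide (p.1 ≤ a))) :=
      Or.inr (Or.inl ⟨_, by simp, rfl⟩)
    have e3 : (LT α).ch (.row κ a ((p :: l).map Prod.fst)) (.row κ a (l.map Prod.fst)) :=
      Or.inr (Or.inr rfl)
    have f1 : a ≤ p.1 ↔ a' ≤ p.2 := by
      obtain ⟨_, (⟨v, hv, rfl⟩ | ⟨v, hv, rfl⟩ | rfl), h2⟩ := (hY _ _ h').2.1 _ e1
      · have := hb_eq hY h h2 hr
        rw [← hv, ← this]; simp
      · have := (hY _ _ h2).1; simp [LT, slab] at this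
      · have := (hY _ _ h2).1; simp [LT, slab] at this
    have f2 : p.1 ≤ a ↔ p.2 ≤ a' := by
      obtain ⟨_, (⟨v, hv, rfl⟩ | ⟨v, hv, rfl⟩ | rfl), h2⟩ := (hY _ _ h').2.1 _ e2
      · have := (hY _ _ h2).1; simp [LT, slab] at this
      · have := hb_eq hY h h2 hr
        rw [← hv, ← this]; simp
      · have := (hY _ _ h2).1; simp [LT, slab] at this
    intro q hq
    rcases List.mem_cons.mp hq with rfl | hq
    · exact ⟨f1, f2⟩
    · refine ih ?_ q hq
      obtain ⟨_, (⟨v, hv, rfl⟩ | ⟨v, hv, rfl⟩ | rfl), h2⟩ := (hY _ _ h').2.1 _ e3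
      · have := (hY _ _ h2).1; simp [LT, slab] at this
      · have := (hY _ _ h2).1; simp [LT, slab] at this
      · exact h2

theorem mat_eq {Y : St α → St β → Prop} (hY : IsBis (LT α) (LT β) Y) (h : Y .root .root)
    {κ : Option K} (hr : rg α κ ≠ ⊤) (l : List (α × β))
    (h' : Y (.mat κ (l.map Prod.fst)) (.mat κ (l.map Prod.snd))) :
    ∀ p ∈ l, ∀ q ∈ l, (p.1 ≤ q.1 ↔ p.2 ≤ q.2) := by
  induction l with
  | nil => intro q hq; cases hq
  | cons p l ih =>
    have e1 : (LT α).ch (.mat κ ((p :: l).map Prod.fst)) (.row κ p.1 (l.map Prod.fst)) := Or.inl rfl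
    have e2 : (LT α).ch (.mat κ ((p :: l).map Prod.fst)) (.mat κ (l.map Prod.fst)) := Or.inr rfl
    have f1 : Y (.row κ p.1 (l.map Prod.fst)) (.row κ p.2 (l.map Prod.snd)) := by
      obtain ⟨_, (rfl | rfl), h2⟩ := (hY _ _ h').2.1 _ e1
      · exact h2
      · have := (hY _ _ h2).1; simp [LT, slab] at this
    have f2 : Y (.mat κ (l.map Prod.fst)) (.mat κ (l.map Prod.snd)) := by
      obtain ⟨_, (rfl | rfl), h2⟩ := (hY _ _ h').2.1 _ e2
      · have := (hY _ _ h2).1; simp [LT, slab] at this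
      · exact h2
    have f3 := row_eq hY h hr l f1
    have f4 := ih f2
    intro q hq q' hq'
    rcases List.mem_cons.mp hq with e | g
    · rcases List.mem_cons.mp hq' with e' | g'
      · rw [e, e']; simp
      · rw [e]; exact (f3 q' g').1
    · rcases List.mem_cons.mp hq' with e' | g'
      · rw [e']; exact (f3 q g).2
      · exact f4 q g q' g'

theorem InW.conv {w : Bool → Option α} {a a' z : α} (h : InW w a) (h' : InW w a') (h1 : a ≤ z)
    (h2 : z ≤ a') : InW w z := by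
  intro s e he
  cases s
  · exact sle_f.mpr ((sle_f.mp (h false e he)).trans h1)
  · exact sle_t.mpr (h2.trans (sle_t.mp (h' true e he)))

theorem tup_eq [Countable α] [Countable β] {Y : St α → St β → Prop}
    (hY : IsBis (LT α) (LT β) Y) (h : Y .root .root)
    {κ : Option K} (hr : rg α κ ≠ ⊤) {w : Bool → Option α} {w' : Bool → Option β}
    (h' : Y (.tup κ w []) (.tup κ w' [])) :
    ∃ P : α → β → Prop, CPI P ∧ WIso P w w' := by
  let X : List (α × β) → Prop := fun l =>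
    Y (.tup κ w (l.map Prod.fst)) (.tup κ w' (l.map Prod.snd)) ∧ ∀ p ∈ l, InW w p.1 ∧ InW w' p.2
  obtain ⟨R, -, h2, h3, h4⟩ := bf {z | InW w z} {z | InW w' z} X [] ⟨h', by simp⟩ (by
    rintro l ⟨hl, hl'⟩ a ha
    obtain ⟨_, (rfl | ⟨a', ha', rfl⟩), h2⟩ :=
      (hY _ _ hl).2.1 (.tup κ w (a :: l.map Prod.fst)) (Or.inr ⟨a, ha, rfl⟩)
    · have h3 := (hY _ _ h2).1
      have h4 : 20 + kn κ = 35 := h3
      have := kn_le κ
      omega
    · refine ⟨a', h2, fun p hp => ?_⟩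
      rcases List.mem_cons.mp hp with rfl | hp
      exacts [⟨ha, ha'⟩, hl' p hp]) (by
    rintro l ⟨hl, hl'⟩ a' ha'
    obtain ⟨_, (rfl | ⟨a, ha, rfl⟩), h2⟩ :=
      (hY _ _ hl).2.2 (.tup κ w' (a' :: l.map Prod.snd)) (Or.inr ⟨a', ha', rfl⟩)
    · have h3 := (hY _ _ h2).1
      have h4 : 35 = 20 + kn κ := h3
      have := kn_le κ
      omega
    · refine ⟨a, h2, fun p hp => ?_⟩
      rcases List.mem_cons.mp hp with rfl | hp
      exacts [⟨ha, ha'⟩, hl' p hp])
  have hmat : ∀ l, X l → ∀ p ∈ l, ∀ q ∈ l, (p.1 ≤ q.1 ↔ p.2 ≤ q.2) := by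
    rintro l ⟨hl, -⟩
    refine mat_eq hY h hr l ?_
    obtain ⟨_, (rfl | ⟨a, ha, rfl⟩), h2⟩ := (hY _ _ hl).2.1 (.mat κ (l.map Prod.fst)) (Or.inl rfl)
    · exact h2
    · have h3 := (hY _ _ h2).1
      have h4 : 35 = 20 + kn κ := h3
      have := kn_le κ
      omega
  have hin : ∀ a b, R a b → InW w a ∧ InW w' b := by
    intro a b hab
    obtain ⟨l, hl, m1, -⟩ := h4 a b a b hab hab
    exact hl.2 _ m1
  refine ⟨R, ⟨?_, ?_, ?_⟩, ?_, ?_⟩
  · intro a b a' b' e1 e2
    obtain ⟨l, hl, m1, m2⟩ := h4 a b a' b' e1 e2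
    exact hmat l hl _ m1 _ m2
  · intro a b a' b' z e1 e2 e3 e4
    exact h2 z ((hin _ _ e1).1.conv (hin _ _ e2).1 e3 e4)
  · intro a b a' b' z e1 e2 e3 e4
    exact h3 z ((hin _ _ e1).2.conv (hin _ _ e2).2 e3 e4)
  · intro z hz
    obtain ⟨b, hb⟩ := h2 z hz
    exact ⟨b, hb, (hin _ _ hb).2⟩
  · intro z hz
    obtain ⟨b, hb⟩ := h3 z hz
    exact ⟨b, hb, (hin _ _ hb).1⟩

theorem root_step [Countable α] [Countable β] {Y : St α → St β → Prop}
    (hY : IsBis (LT α) (LT β) Y) (h : Y .root .root)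
    {κ : Option K} (hr : rg α κ ≠ ⊤) {w : Bool → Option α} (hw : okw κ w) :
    ∃ w' : Bool → Option β, okw κ w' ∧ ∃ P : α → β → Prop, CPI P ∧ WIso P w w' := by
  obtain ⟨_, (⟨κ', rfl⟩ | ⟨κ', w', hw', rfl⟩), h2⟩ :=
    (hY _ _ h).2.1 (.tup κ w []) (Or.inr ⟨κ, w, hw, rfl⟩)
  · have h3 := (hY _ _ h2).1
    have h4 : 20 + kn κ = 10 + kn κ' := h3
    have := kn_le κ'
    omega
  · have h3 := (hY _ _ h2).1
    have h4 : 20 + kn κ = 20 + kn κ' := h3
    have : κ = κ' := kn_inj (by omega)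
    subst this
    exact ⟨w', hw', tup_eq hY h hr h2⟩

theorem emb_of_bis [Countable α] [Countable β] [Nonempty α] {Y : St α → St β → Prop}
    (hY : IsBis (LT α) (LT β) Y) (h : Y .root .root) :
    ∃ R : α → β → Prop, CPI R ∧ Tot R := by
  by_cases hD : rg α (some K.D) = ⊤
  · by_cases hC : rg α (some K.C) = ⊤
    · obtain ⟨T, e, h1, t1, h2⟩ := comp_both (soundC hC)
      have hin : ∀ a b, T a b → InW (fun s => some (e s)) b := by
        intro a b hab s e' he
        cases he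
        exact (sle_total s b (e s)).resolve_right (h2 s a b hab)
      obtain ⟨w', -, P, hP, hW⟩ := root_step hY h (κ := none) rg_none_ne
        (w := fun s => some (e s)) (by
          obtain ⟨a⟩ := (inferInstance : Nonempty α)
          obtain ⟨b, hb⟩ := t1 a
          exact ⟨e false, e true, (sle_f.mp (hin a b hb false _ rfl)).trans
            (sle_t.mp (hin a b hb true _ rfl)), rfl, rfl⟩)
      refine ⟨_, h1.comp hP, fun a => ?_⟩
      obtain ⟨b, hb⟩ := t1 a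
      obtain ⟨c, hc, -⟩ := hW.1 b (hin a b hb)
      exact ⟨c, b, hb, hc⟩
    · obtain ⟨s, hs⟩ := soundD hD
      have hA : rg α (some (K.A (!s))) ≠ ⊤ := fun hA =>
        hC (root_top (exC_top (both_of hs (soundA hA (by simpa using hs)))))
      obtain ⟨T, e, h1, t1, h2⟩ := hs
      have hin : ∀ a b, T a b → InW (fun t => if t = s then some e else none) b := by
        intro a b hab t e' he
        dsimp only at he
        split_ifs at he with ht
        cases he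
        subst ht
        exact (sle_total t b e).resolve_right (h2 a b hab)
      obtain ⟨w', -, P, hP, hW⟩ := root_step hY h hA
        (w := fun t => if t = s then some e else none) ⟨by simp, e, by simp⟩
      refine ⟨_, h1.comp hP, fun a => ?_⟩
      obtain ⟨b, hb⟩ := t1 a
      obtain ⟨c, hc, -⟩ := hW.1 b (hin a b hb)
      exact ⟨c, b, hb, hc⟩
  · obtain ⟨w', hw', P, hP, hW⟩ := root_step hY h hD (w := fun _ => none) fun _ => rfl
    refine ⟨P, hP, fun a => ?_⟩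
    obtain ⟨c, hc, -⟩ := hW.1 a (fun s e he => by cases he)
    exact ⟨c, hc⟩

/-- Bi-embeddability is bisimilarity of the roots. -/
theorem bis_iff [Countable α] [Countable β] [Nonempty α] [Nonempty β] :
    Bis (LT α) (LT β) .root .root ↔
      (∃ R : α → β → Prop, CPI R ∧ Tot R) ∧ (∃ S : β → α → Prop, CPI S ∧ Tot S) := by
  constructor
  · rintro ⟨Y, hY, h⟩
    exact ⟨emb_of_bis hY h, emb_of_bis hY.flip h⟩
  · rintro ⟨⟨R, h1, t1⟩, ⟨S, h2, t2⟩⟩
    exact bis_of_biemb h1 h2 t1 t2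

end Pool.Agent.H.MP_387a72_lc
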