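import Mathlib
import Pool.Agent.H63.CB.F

set_option autoImplicit false

namespace Pool.Agent.H.MP_387a72_lc
open Set

/-! ## index order -/

def Idx : Type := ℚ × ℕ

noncomputable def Idx.val (i : Idx) : ℝ := (i.1 : ℝ) + (i.2 : ℝ) * √2

theorem Idx.val_inj : Function.Injective Idx.val := by
  rintro ⟨q, n⟩ ⟨q', n'⟩ h
  have h : (q : ℝ) + (n : ℝ) * √2 = (q' : ℝ) + (n' : ℝ) * √2 := h
  by_cases hn : n = n'
  · subst hn
    have : (q : ℝ) = q' := by linarith
    have : q = q' := by exact_mod_cast this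
    rw [this]
  · exfalso
    have hne : ((n : ℝ) - n') ≠ 0 := by
      intro h0
      apply hn
      have : (n : ℝ) = n' := by linarith
      exact_mod_cast this
    refine irrational_sqrt_two ⟨(q' - q) / ((n : ℚ) - n'), ?_⟩
    push_cast
    rw [div_eq_iff hne]
    linarith

noncomputable instance : LinearOrder Idx := LinearOrder.lift' Idx.val Idx.val_inj

theorem Idx.lt_iff {i j : Idx} : i < j ↔ i.val < j.val := Iff.rfl

instance : Countable Idx := inferInstanceAs (Countable (ℚ × ℕ))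
instance : Infinite Idx := inferInstanceAs (Infinite (ℚ × ℕ))
instance : Nonempty Idx := ⟨(0, 0)⟩

theorem Idx.dense {u v : ℝ} (h : u < v) (n : ℕ) : ∃ i : Idx, i.2 = n ∧ u < i.val ∧ i.val < v := by
  obtain ⟨q, h1, h2⟩ := exists_rat_btwn (show u - (n : ℝ) * √2 < v - (n : ℝ) * √2 by linarith)
  refine ⟨(q, n), rfl, ?_, ?_⟩ <;> show _ < _
  · show u < (q : ℝ) + (n : ℝ) * √2
    linarith
  · show (q : ℝ) + (n : ℝ) * √2 < v
    linarith

/-! ## child functions -/

section FB
variable {σ τ : Type}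

/-- guarded systems -/
structure Gd (L : LTS σ) (δ : σ) : Prop where
  h0 : L.lab δ = 0
  h1 : ∀ a a', L.ch a a' → L.lab a' ≠ 0
  h2 : ∀ a, ¬ L.ch δ a

open Classical in
noncomputable def cf (L : LTS σ) (en : ℕ → σ) (δ : σ) (s : σ) (i : Idx) : σ :=
  if L.ch s (en i.2) then en i.2 else δ

def FBis (l : σ → ℕ) (m : τ → ℕ) (f : σ → Idx → σ) (g : τ → Idx → τ) (Y : σ → τ → Prop) : Prop :=
  ∀ a b, Y a b → l a = m b ∧ (∀ i, ∃ j, Y (f a i) (g b j)) ∧ (∀ j, ∃ i, Y (f a i) (g b j))

theorem FBis.flip {l : σ → ℕ} {m : τ → ℕ} {f : σ → Idx → σ} {g : τ → Idx → τ} {Y : σ → τ → Prop}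
    (h : FBis l m f g Y) : FBis m l g f (fun b a => Y a b) := fun b a hab =>
  ⟨(h a b hab).1.symm, (h a b hab).2.2, (h a b hab).2.1⟩

theorem fbis_half {L : LTS σ} {M : LTS τ} {en : ℕ → σ} {em : ℕ → τ} {δ : σ} {ε : τ}
    (hm : Function.Surjective em) (hL : Gd L δ) (hM : Gd M ε)
    {Y : σ → τ → Prop} (h : IsBis L M Y) (a : σ) (b : τ) (hab : Y a b ∨ (a = δ ∧ b = ε)) (i : Idx) :
    ∃ j, (Y (cf L en δ a i) (cf M em ε b j) ∨ (cf L en δ a i = δ ∧ cf M em ε b j = ε)) := by
  obtain ⟨n, hn⟩ := hm ε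
  rcases hab with hab | ⟨rfl, rfl⟩
  · by_cases hc : L.ch a (en i.2)
    · obtain ⟨b', hb', hy⟩ := (h a b hab).2.1 _ hc
      obtain ⟨k, rfl⟩ := hm b'
      exact ⟨(0, k), Or.inl (by simpa [cf, hc, hb'] using hy)⟩
    · refine ⟨(0, n), Or.inr ⟨by simp [cf, hc], ?_⟩⟩
      have : ¬ M.ch b ε := fun h' => hM.h1 _ _ h' hM.h0
      simp [cf, hn]
  · exact ⟨(0, n), Or.inr ⟨by simp [cf, hL.h2], by simp [cf, hM.h2]⟩⟩

theorem fbis_of_bis {L : LTS σ} {M : LTS τ} {en : ℕ → σ} {em : ℕ → τ} {δ : σ} {ε : τ}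
    (hn : Function.Surjective en) (hm : Function.Surjective em) (hL : Gd L δ) (hM : Gd M ε)
    {Y : σ → τ → Prop} (h : IsBis L M Y) :
    FBis L.lab M.lab (cf L en δ) (cf M em ε) (fun a b => Y a b ∨ (a = δ ∧ b = ε)) := by
  intro a b hab
  refine ⟨?_, fbis_half hm hL hM h a b hab, fun j => ?_⟩
  · rcases hab with hab | ⟨rfl, rfl⟩
    · exact (h a b hab).1
    · rw [hL.h0, hM.h0]
  · obtain ⟨i, hi⟩ := fbis_half (Y := fun b a => Y a b) hn hM hL h.flip b a
      (hab.imp id fun h => ⟨h.2, h.1⟩) j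
    exact ⟨i, hi.imp id fun h => ⟨h.2, h.1⟩⟩

theorem bis_of_fbis {L : LTS σ} {M : LTS τ} {en : ℕ → σ} {em : ℕ → τ} {δ : σ} {ε : τ}
    (hn : Function.Surjective en) (hm : Function.Surjective em) (hL : Gd L δ) (hM : Gd M ε)
    {Y : σ → τ → Prop} (h : FBis L.lab M.lab (cf L en δ) (cf M em ε) Y) : IsBis L M Y := by
  intro a b hab
  obtain ⟨h1, h2, h3⟩ := h a b hab
  refine ⟨h1, fun a' ha' => ?_, fun b' hb' => ?_⟩
  · obtain ⟨n, rfl⟩ := hn a'
    obtain ⟨j, hj⟩ := h2 (0, n)
    have e : cf L en δ a (0, n) = en n := by simp [cf, ha']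
    rw [e] at hj
    by_cases hc : M.ch b (em j.2)
    · have e2 : cf M em ε b j = em j.2 := by simp [cf, hc]
      exact ⟨_, hc, e2 ▸ hj⟩
    · have e2 : cf M em ε b j = ε := by simp [cf, hc]
      rw [e2] at hj
      exact absurd ((h _ _ hj).1.trans hM.h0) (hL.h1 _ _ ha')
  · obtain ⟨n, rfl⟩ := hm b'
    obtain ⟨j, hj⟩ := h3 (0, n)
    have e : cf M em ε b (0, n) = em n := by simp [cf, hb']
    rw [e] at hj
    by_cases hc : L.ch a (en j.2)
    · have e2 : cf L en δ a j = en j.2 := by simp [cf, hc]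
      exact ⟨_, hc, e2 ▸ hj⟩
    · have e2 : cf L en δ a j = δ := by simp [cf, hc]
      rw [e2] at hj
      exact absurd ((h _ _ hj).1.symm.trans hL.h0) (hM.h1 _ _ hb')

theorem ext_step (Z : Idx → Idx → Prop) (l : List (Idx × Idx))
    (hl : ∀ p ∈ l, ∀ q ∈ l, (p.1 ≤ q.1 ↔ p.2 ≤ q.2)) (hZ : ∀ p ∈ l, Z p.1 p.2) (i : Idx)
    (h1 : ∃ j, Z i j) (h2 : ∀ j j' : Idx, Z i j → j.2 = j'.2 → Z i j') :
    ∃ j, (∀ p ∈ (i, j) :: l, ∀ q ∈ (i, j) :: l, (p.1 ≤ q.1 ↔ p.2 ≤ q.2)) ∧
      ∀ p ∈ (i, j) :: l, Z p.1 p.2 := by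
  classical
  by_cases h : ∃ p ∈ l, p.1 = i
  · obtain ⟨p, hp, rfl⟩ := h
    have hmem : ∀ q ∈ (p.1, p.2) :: l, q ∈ l := by
      intro q hq
      rcases List.mem_cons.mp hq with rfl | hq
      · exact hp
      · exact hq
    exact ⟨p.2, fun q hq q' hq' => hl q (hmem q hq) q' (hmem q' hq'), fun q hq => hZ q (hmem q hq)⟩
  · push Not at h
    have hlt : ∀ p ∈ l, ∀ q ∈ l, p.1 < q.1 → p.2 < q.2 := by
      intro p hp q hq hpq
      by_contra hc
      exact absurd ((hl q hq p hp).mpr (not_lt.mp hc)) (not_le.mpr hpq)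
    obtain ⟨m, hm1, hm2⟩ := Order.exists_between_finsets
      (((l.toFinset.filter fun p => p.1 < i).image fun p => p.2.val))
      (((l.toFinset.filter fun p => i < p.1).image fun p => p.2.val)) (by
        intro x hx y hy
        simp only [Finset.mem_image, Finset.mem_filter, List.mem_toFinset] at hx hy
        obtain ⟨p, ⟨hp, hpi⟩, rfl⟩ := hx
        obtain ⟨q, ⟨hq, hqi⟩, rfl⟩ := hy
        exact Idx.lt_iff.mp (hlt p hp q hq (hpi.trans hqi)))
    obtain ⟨m', hm1', hm2'⟩ := Order.exists_between_finsets ({m} : Finset ℝ)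
      (((l.toFinset.filter fun p => i < p.1).image fun p => p.2.val)) (by
        intro x hx y hy
        rw [Finset.mem_singleton.mp hx]
        exact hm2 y hy)
    obtain ⟨j0, hj0⟩ := h1
    obtain ⟨j, hj, hj1, hj2⟩ := Idx.dense (hm1' m (by simp)) j0.2
    have hlo : ∀ p ∈ l, p.1 < i → p.2 < j := by
      intro p hp hpi
      refine Idx.lt_iff.mpr ((hm1 _ ?_).trans hj1)
      simp only [Finset.mem_image, Finset.mem_filter, List.mem_toFinset]
      exact ⟨p, ⟨hp, hpi⟩, rfl⟩
    have hhi : ∀ p ∈ l, i < p.1 → j < p.2 := by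
      intro p hp hpi
      refine Idx.lt_iff.mpr (hj2.trans (hm2' _ ?_))
      simp only [Finset.mem_image, Finset.mem_filter, List.mem_toFinset]
      exact ⟨p, ⟨hp, hpi⟩, rfl⟩
    have hcmp : ∀ p ∈ l, (p.1 ≤ i ↔ p.2 ≤ j) ∧ (i ≤ p.1 ↔ j ≤ p.2) := by
      intro p hp
      rcases lt_trichotomy p.1 i with h3 | h3 | h3
      · have := hlo p hp h3
        exact ⟨iff_of_true h3.le this.le, iff_of_false (not_le.mpr h3) (not_le.mpr this)⟩
      · exact absurd h3 (h p hp)
      · have := hhi p hp h3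
        exact ⟨iff_of_false (not_le.mpr h3) (not_le.mpr this), iff_of_true h3.le this.le⟩
    refine ⟨j, ?_, ?_⟩
    · intro p hp q hq
      rcases List.mem_cons.mp hp with e | g
      · rcases List.mem_cons.mp hq with e' | g'
        · rw [e, e']; simp
        · rw [e]; exact (hcmp q g').2
      · rcases List.mem_cons.mp hq with e' | g'
        · rw [e']; exact (hcmp p g).1
        · exact hl p g q g'
    · intro p hp
      rcases List.mem_cons.mp hp with e | g
      · rw [e]; exact h2 _ _ hj0 hj.symm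
      · exact hZ p g

theorem shuffle (Z : Idx → Idx → Prop) (h1 : ∀ i, ∃ j, Z i j) (h2 : ∀ j, ∃ i, Z i j)
    (h3 : ∀ i j j' : Idx, Z i j → j.2 = j'.2 → Z i j')
    (h4 : ∀ i i' j : Idx, Z i j → i.2 = i'.2 → Z i' j) :
    ∃ φ : Idx ≃o Idx, ∀ i, Z i (φ i) := by
  let X : List (Idx × Idx) → Prop := fun l =>
    (∀ p ∈ l, ∀ q ∈ l, (p.1 ≤ q.1 ↔ p.2 ≤ q.2)) ∧ ∀ p ∈ l, Z p.1 p.2
  obtain ⟨R, -, r1, r2, r3⟩ := bf (univ : Set Idx) (univ : Set Idx) X [] ⟨by simp, by simp⟩ (by
    rintro l ⟨hl, hl'⟩ i -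
    exact ext_step Z l hl hl' i (h1 i) (h3 i)) (by
    rintro l ⟨hl, hl'⟩ j -
    obtain ⟨i, hi, hi'⟩ := ext_step (fun a b => Z b a) (l.map Prod.swap)
      (by
        intro p hp q hq
        simp only [List.mem_map] at hp hq
        obtain ⟨p, hp, rfl⟩ := hp
        obtain ⟨q, hq, rfl⟩ := hq
        exact (hl p hp q hq).symm)
      (by
        intro p hp
        simp only [List.mem_map] at hp
        obtain ⟨p, hp, rfl⟩ := hp
        exact hl' p hp) j (h2 j) (fun a b hab e => h4 _ _ _ hab e)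
    have hsw : ∀ p ∈ (i, j) :: l, p.swap ∈ (j, i) :: l.map Prod.swap := by
      intro p hp
      rcases List.mem_cons.mp hp with rfl | hp
      · simp
      · exact List.mem_cons_of_mem _ (List.mem_map_of_mem hp)
    exact ⟨i, fun p hp q hq => (hi _ (hsw p hp) _ (hsw q hq)).symm, fun p hp => hi' _ (hsw p hp)⟩)
  choose f hf using fun a => r1 a (mem_univ _)
  choose g hg using fun a => r2 a (mem_univ _)
  have hcmp : ∀ a b a' b', R a b → R a' b' → (a ≤ a' ↔ b ≤ b') := by
    intro a b a' b' e1 e2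
    obtain ⟨l, hl, m1, m2⟩ := r3 a b a' b' e1 e2
    exact hl.1 _ m1 _ m2
  refine ⟨{ toFun := f
            invFun := g
            left_inv := fun a => le_antisymm ((hcmp _ _ _ _ (hg (f a)) (hf a)).mpr le_rfl)
              ((hcmp _ _ _ _ (hf a) (hg (f a))).mpr le_rfl)
            right_inv := fun b => le_antisymm ((hcmp _ _ _ _ (hf (g b)) (hg b)).mp le_rfl)
              ((hcmp _ _ _ _ (hg b) (hf (g b))).mp le_rfl)
            map_rel_iff' := fun {a b} => (hcmp _ _ _ _ (hf a) (hf b)).symm }, fun i => ?_⟩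
  obtain ⟨l, hl, m1, -⟩ := r3 i (f i) i (f i) (hf i) (hf i)
  exact hl.2 _ m1

/-- state at a path -/
def stt (f : σ → Idx → σ) : σ → List Idx → σ
  | s, [] => s
  | s, i :: p => stt f (f s i) p

def TIso (l : σ → ℕ) (m : τ → ℕ) (f : σ → Idx → σ) (g : τ → Idx → τ) (a : σ) (b : τ) : Prop :=
  ∃ F : List Idx ≃o List Idx, (∀ p, (F p).length = p.length) ∧
    ∀ p, l (stt f a p) = m (stt g b (F p))

theorem cons_lt {i j : Idx} {p q : List Idx} : i :: p < j :: q ↔ i < j ∨ (i = j ∧ p < q) :=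
  List.cons_lt_cons_iff

theorem tiso_of_fbis {l : σ → ℕ} {m : τ → ℕ} {f : σ → Idx → σ} {g : τ → Idx → τ}
    (hf : ∀ (a : σ) (i i' : Idx), i.2 = i'.2 → f a i = f a i')
    (hg : ∀ (a : τ) (i i' : Idx), i.2 = i'.2 → g a i = g a i')
    {Y : σ → τ → Prop} (h : FBis l m f g Y) {a : σ} {b : τ} (hab : Y a b) : TIso l m f g a b := by
  classical
  have key : ∀ a b, ∃ φ : Idx ≃o Idx, Y a b → ∀ i, Y (f a i) (g b (φ i)) := by
    intro a b
    by_cases hab : Y a b
    · obtain ⟨φ, hφ⟩ := shuffle (fun i j => Y (f a i) (g b j)) (h a b hab).2.1 (h a b hab).2.2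
        (fun i j j' hz e => by rw [← hg b _ _ e]; exact hz)
        (fun i i' j hz e => by rw [← hf a _ _ e]; exact hz)
      exact ⟨φ, fun _ => hφ⟩
    · exact ⟨OrderIso.refl _, fun h => absurd h hab⟩
  choose φ hφ using key
  let G : σ → τ → List Idx → List Idx := fun a b p =>
    List.rec (motive := fun _ => σ → τ → List Idx) (fun _ _ => [])
      (fun i _ ih a b => φ a b i :: ih (f a i) (g b (φ a b i))) p a b
  have G0 : ∀ a b, G a b [] = [] := fun _ _ => rfl
  have G1 : ∀ a b i p, G a b (i :: p) = φ a b i :: G (f a i) (g b (φ a b i)) p :=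
    fun _ _ _ _ => rfl
  have hlen : ∀ p a b, (G a b p).length = p.length := by
    intro p
    induction p with
    | nil => intro a b; rfl
    | cons i p ih => intro a b; rw [G1]; simp [ih]
  have hlab : ∀ p a b, Y a b → Y (stt f a p) (stt g b (G a b p)) := by
    intro p
    induction p with
    | nil => intro a b hab; exact hab
    | cons i p ih =>
      intro a b hab
      rw [G1]
      exact ih _ _ (hφ a b hab i)
  have hmono : ∀ p a b q, p < q → G a b p < G a b q := by
    intro p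
    induction p with
    | nil =>
      intro a b q hq
      cases q with
      | nil => exact absurd hq (lt_irrefl _)
      | cons j q => rw [G0 a b, G1 a b]; exact List.nil_lt_cons _ _
    | cons i p ih =>
      intro a b q hq
      cases q with
      | nil => exact absurd hq (List.not_lt_nil _)
      | cons j q =>
        rw [G1, G1, cons_lt]
        rcases cons_lt.mp hq with h | ⟨rfl, h⟩
        · exact Or.inl ((φ a b).lt_iff_lt.mpr h)
        · exact Or.inr ⟨rfl, ih _ _ _ h⟩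
  have hsurj : ∀ q a b, ∃ p, G a b p = q := by
    intro q
    induction q with
    | nil => intro a b; exact ⟨[], rfl⟩
    | cons j q ih =>
      intro a b
      obtain ⟨p, hp⟩ := ih (f a ((φ a b).symm j)) (g b j)
      refine ⟨(φ a b).symm j :: p, ?_⟩
      rw [G1]
      simp only [OrderIso.apply_symm_apply]
      rw [hp]
  have hsm : StrictMono (G a b) := fun p q h => hmono p a b q h
  refine ⟨StrictMono.orderIsoOfSurjective (G a b) hsm (fun q => hsurj q a b),
    fun p => ?_, fun p => ?_⟩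
  · exact hlen p a b
  · exact (h _ _ (hlab p a b hab)).1

theorem TIso.flip {l : σ → ℕ} {m : τ → ℕ} {f : σ → Idx → σ} {g : τ → Idx → τ} {a : σ} {b : τ}
    (h : TIso l m f g a b) : TIso m l g f b a := by
  obtain ⟨F, h1, h2⟩ := h
  refine ⟨F.symm, fun p => ?_, fun p => ?_⟩
  · rw [← h1]; simp
  · rw [h2]; simp

theorem tiso_step {l : σ → ℕ} {m : τ → ℕ} {f : σ → Idx → σ} {g : τ → Idx → τ} {a : σ} {b : τ}
    (h : TIso l m f g a b) (i : Idx) : ∃ j, TIso l m f g (f a i) (g b j) := by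
  obtain ⟨F, h1, h2⟩ := h
  obtain ⟨j, hj⟩ : ∃ j, F [i] = [j] := List.length_eq_one_iff.mp (h1 [i])
  have hhead : ∀ p, ∃ p', F (i :: p) = j :: p' := by
    intro p
    obtain ⟨k, p', hk⟩ : ∃ k p', F (i :: p) = k :: p' := by
      cases e : F (i :: p) with
      | nil =>
        have := h1 (i :: p)
        rw [e] at this
        simp at this
      | cons k p' => exact ⟨k, p', rfl⟩
    have hle : [j] ≤ k :: p' := by
      rw [← hj, ← hk]
      refine F.monotone ?_
      rcases p with _ | ⟨x, p⟩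
      · exact le_rfl
      · exact le_of_lt (cons_lt.mpr (Or.inr ⟨rfl, List.nil_lt_cons _ _⟩))
    have hjk : j ≤ k := by
      by_contra hc
      exact absurd hle (not_le.mpr (cons_lt.mpr (Or.inl (not_le.mp hc))))
    rcases hjk.lt_or_eq with hlt | rfl
    · exfalso
      obtain ⟨i', hi'⟩ : ∃ i', F.symm [k] = [i'] := List.length_eq_one_iff.mp (by
        rw [← h1]; simp)
      have hF : F [i'] = [k] := by rw [← hi']; simp
      have e1 : i < i' := by
        have : F [i] < F [i'] := by rw [hj, hF]; exact cons_lt.mpr (Or.inl hlt)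
        have := F.lt_iff_lt.mp this
        rcases cons_lt.mp this with h | ⟨-, h⟩
        · exact h
        · exact absurd h (lt_irrefl _)
      have e2 : F [i'] ≤ F (i :: p) := by
        rw [hF, hk]
        rcases p' with _ | ⟨x, p'⟩
        · exact le_rfl
        · exact le_of_lt (cons_lt.mpr (Or.inr ⟨rfl, List.nil_lt_cons _ _⟩))
      have e3 := F.le_iff_le.mp e2
      exact absurd e3 (not_le.mpr (cons_lt.mpr (Or.inl e1)))
    · exact ⟨p', hk⟩
  have hhead' : ∀ q, ∃ p, F (i :: p) = j :: q := by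
    intro q
    -- symmetric argument
    have hj' : F.symm [j] = [i] := by rw [← hj]; simp
    obtain ⟨k, p', hk⟩ : ∃ k p', F.symm (j :: q) = k :: p' := by
      cases e : F.symm (j :: q) with
      | nil =>
        have := h1 (F.symm (j :: q))
        rw [e] at this
        simp only [OrderIso.apply_symm_apply, List.length_nil] at this
        have e' : F [] = j :: q := by rw [← e]; simp
        rw [e', List.length_cons] at this
        omega
      | cons k p' => exact ⟨k, p', rfl⟩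
    have hkF : F (k :: p') = j :: q := by rw [← hk]; simp
    have hle : [i] ≤ k :: p' := by
      rw [← hj', ← hk]
      refine F.symm.monotone ?_
      rcases q with _ | ⟨x, q⟩
      · exact le_rfl
      · exact le_of_lt (cons_lt.mpr (Or.inr ⟨rfl, List.nil_lt_cons _ _⟩))
    have hik : i ≤ k := by
      by_contra hc
      exact absurd hle (not_le.mpr (cons_lt.mpr (Or.inl (not_le.mp hc))))
    rcases hik.lt_or_eq with hlt | rfl
    · exfalso
      obtain ⟨j', hj''⟩ : ∃ j', F [k] = [j'] := List.length_eq_one_iff.mp (h1 [k])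
      have e1 : j < j' := by
        have : F [i] < F [k] := F.lt_iff_lt.mpr (cons_lt.mpr (Or.inl hlt))
        rw [hj, hj''] at this
        rcases cons_lt.mp this with h | ⟨-, h⟩
        · exact h
        · exact absurd h (lt_irrefl _)
      have e2 : F [k] ≤ F (k :: p') := by
        refine F.monotone ?_
        rcases p' with _ | ⟨x, p'⟩
        · exact le_rfl
        · exact le_of_lt (cons_lt.mpr (Or.inr ⟨rfl, List.nil_lt_cons _ _⟩))
      rw [hj'', hkF] at e2
      exact absurd e2 (not_le.mpr (cons_lt.mpr (Or.inl e1)))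
    · exact ⟨p', hkF⟩
  choose G hG using hhead
  have hmono : ∀ p q, p < q → G p < G q := by
    intro p q hpq
    have : F (i :: p) < F (i :: q) := F.lt_iff_lt.mpr (cons_lt.mpr (Or.inr ⟨rfl, hpq⟩))
    rw [hG, hG] at this
    rcases cons_lt.mp this with h | ⟨-, h⟩
    · exact absurd h (lt_irrefl _)
    · exact h
  have hsm : StrictMono G := fun p q h => hmono p q h
  have hsj : Function.Surjective G := by
    intro q
    obtain ⟨p, hp⟩ := hhead' q
    refine ⟨p, ?_⟩
    rw [hG] at hp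
    exact (List.cons.inj hp).2
  refine ⟨j, StrictMono.orderIsoOfSurjective G hsm hsj, fun p => ?_, fun p => ?_⟩
  · have h3 : (G p).length = p.length := by
      have := h1 (i :: p)
      rw [hG] at this
      simpa using this
    exact h3
  · have h3 : l (stt f (f a i) p) = m (stt g (g b j) (G p)) := by
      have := h2 (i :: p)
      rw [hG] at this
      exact this
    exact h3

theorem fbis_tiso (l : σ → ℕ) (m : τ → ℕ) (f : σ → Idx → σ) (g : τ → Idx → τ) :
    FBis l m f g (TIso l m f g) := by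
  intro a b h
  refine ⟨?_, tiso_step h, fun j => ?_⟩
  · obtain ⟨F, h1, h2⟩ := h
    have : F [] = [] := List.length_eq_zero_iff.mp (h1 [])
    have h3 := h2 []
    rw [this] at h3
    exact h3
  · obtain ⟨i, hi⟩ := tiso_step h.flip j
    exact ⟨i, hi.flip⟩

end FB

end Pool.Agent.H.MP_387a72_lc
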