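import Mathlib
import Pool.Agent.H63.CB.G

set_option autoImplicit false

namespace Pool.Agent.H.MP_387a72_lc
open Set

/-! ## coding coloured orders by orders -/

theorem exists_ee : ∃ e : ℕ → ℚ, Function.Injective e ∧ range e = Ioi 0 := by
  have : Infinite (Ioi (0 : ℚ)) := (Set.Ioi_infinite (0 : ℚ)).to_subtype
  obtain ⟨φ⟩ := nonempty_equiv_of_countable (α := ℕ) (β := Ioi (0 : ℚ))
  refine ⟨fun n => (φ n : ℚ), fun a b h => φ.injective (Subtype.ext h), ?_⟩
  ext q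
  constructor
  · rintro ⟨n, rfl⟩
    exact (φ n).2
  · intro hq
    exact ⟨φ.symm ⟨q, hq⟩, by simp⟩

noncomputable def ee : ℕ → ℚ := exists_ee.choose

theorem ee_inj : Function.Injective ee := exists_ee.choose_spec.1

theorem ee_range : range ee = Ioi 0 := exists_ee.choose_spec.2

theorem ee_pos (n : ℕ) : 0 < ee n := by
  have : ee n ∈ Ioi (0 : ℚ) := by rw [← ee_range]; exact ⟨n, rfl⟩
  exact this

theorem ee_btw {a b : ℚ} (ha : 0 ≤ a) (hab : a < b) (c : ℕ) : ∃ j, c < j ∧ a < ee j ∧ ee j < b := by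
  obtain ⟨q, hq, hq2⟩ := ((Set.Ioo_infinite hab).sdiff ((Set.finite_Iic c).image ee)).nonempty
  obtain ⟨j, rfl⟩ : q ∈ range ee := by rw [ee_range]; exact lt_of_le_of_lt ha hq.1
  refine ⟨j, ?_, hq.1, hq.2⟩
  by_contra h
  exact hq2 ⟨j, not_lt.mp h, rfl⟩

noncomputable def kk (c i : ℕ) : ℚ := if i ≤ c then (i : ℚ) - (c + 1) else ee i

theorem kk_le {c i : ℕ} (h : i ≤ c) : kk c i = (i : ℚ) - (c + 1) := if_pos h
theorem kk_gt {c i : ℕ} (h : c < i) : kk c i = ee i := if_neg (not_le.mpr h)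

theorem kk_neg {c i : ℕ} (h : i ≤ c) : kk c i < 0 := by
  rw [kk_le h]
  have : (i : ℚ) ≤ c := by exact_mod_cast h
  linarith

theorem kk_pos {c i : ℕ} (h : c < i) : 0 < kk c i := by
  rw [kk_gt h]; exact ee_pos i

theorem kk_inj (c : ℕ) : Function.Injective (kk c) := by
  intro i j h
  rcases le_or_gt i c with hi | hi <;> rcases le_or_gt j c with hj | hj
  · rw [kk_le hi, kk_le hj] at h
    have : (i : ℚ) = j := by linarith
    exact_mod_cast this
  · exact absurd h (ne_of_lt ((kk_neg hi).trans (kk_pos hj)))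
  · exact absurd h (ne_of_gt ((kk_neg hj).trans (kk_pos hi)))
  · rw [kk_gt hi, kk_gt hj] at h
    exact ee_inj h

theorem kk_btw {c i j : ℕ} (h : kk c i < kk c j) (hj : c < j) : ∃ k, kk c i < kk c k ∧ kk c k < kk c j := by
  obtain ⟨k, h1, h2, h3⟩ := ee_btw (a := max 0 (kk c i)) (b := kk c j) (le_max_left _ _)
    (max_lt (kk_pos hj) h) c
  refine ⟨k, ?_, ?_⟩ <;> rw [kk_gt h1]
  · exact lt_of_le_of_lt (le_max_right _ _) h2
  · exact h3

theorem kk_nomax (c i : ℕ) : ∃ k, kk c i < kk c k := by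
  obtain ⟨k, h1, h2, -⟩ := ee_btw (a := max 0 (kk c i)) (b := max 0 (kk c i) + 1) (le_max_left _ _)
    (by linarith) c
  refine ⟨k, ?_⟩
  rw [kk_gt h1]
  exact lt_of_le_of_lt (le_max_right _ _) h2

section Bl
variable {X Y : Type}

/-- blocks -/
@[ext] structure Bl (c : X → ℕ) : Type where
  a : X
  b : ℕ

noncomputable def Bl.key (c : X → ℕ) (z : Bl c) : X ×ₗ ℚ := toLex (z.a, kk (c z.a) z.b)

theorem Bl.key_inj (c : X → ℕ) : Function.Injective (Bl.key c) := by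
  rintro ⟨x, i⟩ ⟨y, j⟩ h
  have h' : (x, kk (c x) i) = (y, kk (c y) j) := toLex.injective h
  obtain ⟨h1, h2⟩ := Prod.mk.inj h'
  subst h1
  rw [kk_inj _ h2]

variable [LinearOrder X] [LinearOrder Y]

noncomputable instance (c : X → ℕ) : LinearOrder (Bl c) :=
  LinearOrder.lift' (Bl.key c) (Bl.key_inj c)

theorem Bl.lt_iff {c : X → ℕ} {z w : Bl c} :
    z < w ↔ z.a < w.a ∨ (z.a = w.a ∧ kk (c z.a) z.b < kk (c w.a) w.b) := by
  show Bl.key c z < Bl.key c w ↔ _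
  rw [Prod.Lex.lt_iff]
  rfl

theorem Bl.le_iff {c : X → ℕ} {z w : Bl c} :
    z ≤ w ↔ z.a < w.a ∨ (z.a = w.a ∧ kk (c z.a) z.b ≤ kk (c w.a) w.b) := by
  show Bl.key c z ≤ Bl.key c w ↔ _
  rw [Prod.Lex.le_iff]
  rfl

theorem Bl.cov {c : X → ℕ} {z w : Bl c} : z ⋖ w ↔ z.a = w.a ∧ z.b + 1 = w.b ∧ w.b ≤ c w.a := by
  obtain ⟨x, i⟩ := z
  obtain ⟨y, j⟩ := w
  constructor
  · rintro ⟨h, h'⟩
    rcases Bl.lt_iff.mp h with h1 | ⟨h1, h2⟩
    · exfalso
      obtain ⟨k, hk⟩ := kk_nomax (c x) i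
      exact h' (c := ⟨x, k⟩) (Bl.lt_iff.mpr (Or.inr ⟨rfl, hk⟩)) (Bl.lt_iff.mpr (Or.inl h1))
    · have h1 : x = y := h1
      subst h1
      have h2 : kk (c x) i < kk (c x) j := h2
      refine ⟨rfl, ?_⟩
      show i + 1 = j ∧ j ≤ c x
      rcases le_or_gt j (c x) with hj | hj
      · have hi : i ≤ c x := by
          by_contra hi
          exact absurd ((kk_pos (not_le.mp hi)).trans h2) (not_lt.mpr (kk_neg hj).le)
        have hij : i < j := by
          rw [kk_le hi, kk_le hj] at h2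
          have : (i : ℚ) < j := by linarith
          exact_mod_cast this
        refine ⟨?_, hj⟩
        by_contra hne
        have hlt : i + 1 < j := lt_of_le_of_ne hij hne
        refine h' (c := ⟨x, i + 1⟩) (Bl.lt_iff.mpr (Or.inr ⟨rfl, ?_⟩))
          (Bl.lt_iff.mpr (Or.inr ⟨rfl, ?_⟩))
        · show kk (c x) i < kk (c x) (i + 1)
          rw [kk_le hi, kk_le (by omega)]
          push_cast
          linarith
        · show kk (c x) (i + 1) < kk (c x) j
          rw [kk_le hj, kk_le (by omega)]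
          have : ((i + 1 : ℕ) : ℚ) < j := by exact_mod_cast hlt
          linarith
      · exfalso
        obtain ⟨k, hk, hk'⟩ := kk_btw h2 hj
        exact h' (c := ⟨x, k⟩) (Bl.lt_iff.mpr (Or.inr ⟨rfl, hk⟩))
          (Bl.lt_iff.mpr (Or.inr ⟨rfl, hk'⟩))
  · rintro ⟨h1, h2, h3⟩
    have h1 : x = y := h1
    have h2 : i + 1 = j := h2
    have h3 : j ≤ c y := h3
    subst h1
    subst h2
    refine ⟨Bl.lt_iff.mpr (Or.inr ⟨rfl, ?_⟩), ?_⟩
    · show kk (c x) i < kk (c x) (i + 1)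
      rw [kk_le h3, kk_le (by omega)]
      push_cast
      linarith
    · rintro ⟨y, k⟩ ha hb
      have e1 : x ≤ y := by
        rcases Bl.lt_iff.mp ha with h | ⟨h, -⟩
        · exact le_of_lt h
        · exact le_of_eq h
      have e2 : y ≤ x := by
        rcases Bl.lt_iff.mp hb with h | ⟨h, -⟩
        · exact le_of_lt h
        · exact le_of_eq h
      have e3 : x = y := le_antisymm e1 e2
      subst e3
      have ha' : kk (c x) i < kk (c x) k := by
        rcases Bl.lt_iff.mp ha with h | ⟨-, h⟩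
        · exact absurd h (lt_irrefl _)
        · exact h
      have hb' : kk (c x) k < kk (c x) (i + 1) := by
        rcases Bl.lt_iff.mp hb with h | ⟨-, h⟩
        · exact absurd h (lt_irrefl _)
        · exact h
      rcases le_or_gt k (c x) with hk | hk
      · rw [kk_le hk, kk_le (show i ≤ c x by omega)] at ha'
        rw [kk_le hk, kk_le h3] at hb'
        have a1 : (i : ℚ) < k := by linarith
        have a2 : (k : ℚ) < ((i + 1 : ℕ) : ℚ) := by linarith
        have a1 : i < k := by exact_mod_cast a1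
        have a2 : k < i + 1 := by exact_mod_cast a2
        omega
      · exact absurd ((kk_pos hk).trans hb') (not_lt.mpr (kk_neg h3).le)

/-- exactly `k` successors in a row -/
def up {Z : Type} [LinearOrder Z] : ℕ → Z → Prop
  | 0, z => ∀ w, ¬ z ⋖ w
  | k + 1, z => ∃ w, z ⋖ w ∧ up k w

theorem up_iso {Z W : Type} [LinearOrder Z] [LinearOrder W] (Φ : Z ≃o W) (k : ℕ) (z : Z) :
    up k z → up k (Φ z) := by
  induction k generalizing z with
  | zero =>
    intro h w hw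
    apply h (Φ.symm w)
    rw [← apply_covBy_apply_iff Φ]
    simpa using hw
  | succ k ih =>
    rintro ⟨w, hw, hu⟩
    exact ⟨Φ w, (apply_covBy_apply_iff Φ).mpr hw, ih w hu⟩

theorem Bl.up_iff {c : X → ℕ} (k : ℕ) (z : Bl c) (hz : z.b ≤ c z.a) : up k z ↔ z.b + k = c z.a := by
  induction k generalizing z with
  | zero =>
    show (∀ w, ¬ z ⋖ w) ↔ _
    constructor
    · intro h
      by_contra hne
      exact h ⟨z.a, z.b + 1⟩ (Bl.cov.mpr ⟨rfl, rfl, by
        show z.b + 1 ≤ c z.a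
        omega⟩)
    · intro h w hw
      obtain ⟨h1, h2, h3⟩ := Bl.cov.mp hw
      rw [← h1] at h3
      omega
  | succ k ih =>
    show (∃ w, z ⋖ w ∧ up k w) ↔ _
    constructor
    · rintro ⟨w, hw, hu⟩
      obtain ⟨h1, h2, h3⟩ := Bl.cov.mp hw
      have := (ih w h3).mp hu
      rw [← h1] at this
      omega
    · intro h
      have h4 : z.b + 1 ≤ c z.a := by omega
      refine ⟨⟨z.a, z.b + 1⟩, Bl.cov.mpr ⟨rfl, rfl, h4⟩, ?_⟩
      rw [ih ⟨z.a, z.b + 1⟩ h4]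
      show z.b + 1 + k = c z.a
      omega

/-- starting point of a block with colour `k` -/
def stb {Z : Type} [LinearOrder Z] (k : ℕ) (z : Z) : Prop := (∀ w, ¬ w ⋖ z) ∧ up k z

theorem stb_iso {Z W : Type} [LinearOrder Z] [LinearOrder W] (Φ : Z ≃o W) (k : ℕ) (z : Z)
    (h : stb k z) : stb k (Φ z) := by
  refine ⟨fun w hw => h.1 (Φ.symm w) ?_, up_iso Φ k z h.2⟩
  rw [← apply_covBy_apply_iff Φ]
  simpa using hw

theorem Bl.stb_zero {c : X → ℕ} (x : X) : stb (c x) (⟨x, 0⟩ : Bl c) := by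
  refine ⟨fun w hw => ?_, ?_⟩
  · obtain ⟨h1, h2, h3⟩ := Bl.cov.mp hw
    exact Nat.succ_ne_zero _ h2
  · exact (Bl.up_iff _ _ (Nat.zero_le _)).mpr (Nat.zero_add _)

theorem Bl.stb_conv {c : X → ℕ} {k : ℕ} (hk : 1 ≤ k) {z : Bl c} (h : stb k z) : z.b = 0 ∧ c z.a = k := by
  obtain ⟨k, rfl⟩ := Nat.exists_eq_add_of_le' hk
  have h0 : z.b ≤ c z.a := by
    obtain ⟨w, hw, -⟩ := h.2
    obtain ⟨h1, h2, h3⟩ := Bl.cov.mp hw
    rw [← h1] at h3
    omega
  have h1 : z.b = 0 := by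
    by_contra hne
    obtain ⟨j, hj⟩ := Nat.exists_eq_succ_of_ne_zero hne
    exact h.1 ⟨z.a, j⟩ (Bl.cov.mpr ⟨rfl, hj.symm, h0⟩)
  refine ⟨h1, ?_⟩
  have := (Bl.up_iff _ _ h0).mp h.2
  omega

theorem Bl.step {c : X → ℕ} {d : Y → ℕ} (hc : ∀ x, 1 ≤ c x) (Φ : Bl c ≃o Bl d) (x : X) :
    ∃ y, Φ ⟨x, 0⟩ = ⟨y, 0⟩ ∧ d y = c x := by
  obtain ⟨h1, h2⟩ := Bl.stb_conv (hc x) (stb_iso Φ _ _ (Bl.stb_zero (c := c) x))
  exact ⟨(Φ ⟨x, 0⟩).a, Bl.ext rfl h1, h2⟩

theorem Bl.iso_iff (c : X → ℕ) (d : Y → ℕ) (hc : ∀ x, 1 ≤ c x) (hd : ∀ y, 1 ≤ d y) :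
    Nonempty (Bl c ≃o Bl d) ↔ ∃ F : X ≃o Y, ∀ x, d (F x) = c x := by
  constructor
  · rintro ⟨Φ⟩
    choose f hf hf' using fun x => Bl.step hc Φ x
    choose g hg hg' using fun x => Bl.step hd Φ.symm x
    have hlt : ∀ x x', x < x' → f x < f x' := by
      intro x x' h
      have h1 : Φ ⟨x, 0⟩ < Φ ⟨x', 0⟩ :=
        Φ.lt_iff_lt.mpr (Bl.lt_iff.mpr (Or.inl h))
      rw [hf, hf] at h1
      rcases Bl.lt_iff.mp h1 with h2 | ⟨h2, h3⟩
      · exact h2
      · exfalso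
        have h2 : f x = f x' := h2
        have h3 : kk (d (f x)) 0 < kk (d (f x')) 0 := h3
        rw [h2] at h3
        exact lt_irrefl _ h3
    have hsj : Function.Surjective f := by
      intro y
      refine ⟨g y, ?_⟩
      have h1 : Φ (Φ.symm ⟨y, 0⟩) = ⟨y, 0⟩ := Φ.apply_symm_apply _
      rw [hg, hf] at h1
      exact congrArg Bl.a h1
    have hsm : StrictMono f := fun x y h => hlt x y h
    exact ⟨StrictMono.orderIsoOfSurjective f hsm hsj, fun x => hf' x⟩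
  · rintro ⟨F, hF⟩
    refine ⟨{ toFun := fun z => ⟨F z.a, z.b⟩
              invFun := fun z => ⟨F.symm z.a, z.b⟩
              left_inv := fun z => ?_
              right_inv := fun z => ?_
              map_rel_iff' := fun {z w} => ?_ }⟩
    · exact Bl.ext (F.symm_apply_apply z.a) rfl
    · exact Bl.ext (F.apply_symm_apply z.a) rfl
    · show (⟨F z.a, z.b⟩ : Bl d) ≤ ⟨F w.a, w.b⟩ ↔ z ≤ w
      rw [Bl.le_iff, Bl.le_iff]
      show (F z.a < F w.a ∨ (F z.a = F w.a ∧ kk (d (F z.a)) z.b ≤ kk (d (F w.a)) w.b)) ↔ _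
      rw [F.lt_iff_lt, F.injective.eq_iff, hF, hF]

end Bl

end Pool.Agent.H.MP_387a72_lc
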