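import Mathlib
import Pool.Agent.H63.CB.H

set_option autoImplicit false

namespace Pool.Agent.H.MP_387a72_lc
open Set

/-! ## measurability of the transition systems -/

/-- a copy of the natural numbers without structure -/
def NN : Type := ℕ

instance : Countable NN := inferInstanceAs (Countable ℕ)
instance : Nonempty NN := inferInstanceAs (Nonempty ℕ)

section Meas
variable {Ω : Type} [MeasurableSpace Ω] {E : Ω → LE NN}
  (hE : ∀ a b : NN, Measurable fun x => (E x).le a b)
include hE

theorem m_sle (s : Bool) (a b : NN) : Measurable fun x => @sle NN (E x) s a b := by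
  unfold sle
  exact (measurable_const.imp (hE a b)).and (measurable_const.imp (hE b a))

theorem m_Cmp (l : List (NN × NN)) : Measurable fun x => @Cmp NN (E x) l := by
  unfold Cmp
  refine Measurable.forall fun p => measurable_const.imp (Measurable.forall fun q =>
    measurable_const.imp ((hE _ _).iff (hE _ _)))

theorem m_Hull (l : List (NN × NN)) (s : Bool) (z : NN) :
    Measurable fun x => @Hull NN (E x) l s z := by
  unfold Hull
  refine Measurable.exists fun p => measurable_const.and (Measurable.exists fun q =>
    measurable_const.and ((hE _ _).and (hE _ _)))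

theorem m_sc (p q : Pos NN) : Measurable fun x => @sc NN (E x) p q := by
  cases p with
  | top => exact measurable_const
  | bot => exact measurable_const
  | pad p => exact measurable_const
  | and p p' => exact measurable_const
  | iso l =>
    exact (measurable_const.and (m_Cmp hE l).not).or
      (Measurable.exists fun s => Measurable.exists fun z => measurable_const.and (m_Hull hE l s z))
  | ch l s z =>
    exact Measurable.exists fun w => measurable_const.and (m_Hull hE l (!s) w)
  | emb s x y x' m =>
    refine (Measurable.exists fun y' => (m_sle hE s x' y').and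
      ((Measurable.exists fun e => measurable_const.and
        ((m_sle hE s e y').not.and measurable_const)).or measurable_const)).or measurable_const
  | wit x x' m =>
    exact measurable_const.or ((Measurable.exists fun s => Measurable.exists fun y =>
      Measurable.exists fun μ => measurable_const.and
        ((m_sle hE s (x s) y).and measurable_const)).or measurable_const)
  | ex k x => exact measurable_const
  | root k =>
    exact Measurable.exists fun x => (hE (x false) (x true)).and measurable_const

theorem m_stp (p q : Pos NN) : Measurable fun x => stp (@DD NN (E x)) p q := by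
  show Measurable fun x => (q = Pos.top ∨ (¬ al p ∧ q = p) ∨
    (al p ∧ ∃ t, @sc NN (E x) p t ∧ q = Pos.pad t))
  exact measurable_const.or (measurable_const.or (measurable_const.and
    (Measurable.exists fun t => (m_sc hE p t).and measurable_const)))

theorem m_cs (c d : Bool × Pos NN × Pos NN) : Measurable fun x => cs (@DD NN (E x)) c d := by
  show Measurable fun x => ((c.1 = true ∧ d.1 = false ∧
    (stp (@DD NN (E x)) c.2.1 d.2.1 ∨ stp (@DD NN (E x)) c.2.2 d.2.1) ∧ ¬ al d.2.2) ∨
    (c.1 = false ∧ d.1 = true ∧ (@sc NN (E x) c.2.1 d.2.1 ∨ @sc NN (E x) c.2.2 d.2.1)))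
  exact (measurable_const.and (measurable_const.and
    (((m_stp hE _ _).or (m_stp hE _ _)).and measurable_const))).or
    (measurable_const.and (measurable_const.and ((m_sc hE _ _).or (m_sc hE _ _))))

theorem m_okw (κ : Option K) (w : Bool → Option NN) : Measurable fun x => @okw NN (E x) κ w := by
  rcases κ with _ | (_ | _ | _)
  · exact Measurable.exists fun a => Measurable.exists fun b => (hE a b).and measurable_const
  · exact measurable_const
  · exact measurable_const
  · exact measurable_const

theorem m_InW (w : Bool → Option NN) (z : NN) : Measurable fun x => @InW NN (E x) w z := by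
  unfold InW
  exact Measurable.forall fun s => Measurable.forall fun e => measurable_const.imp (m_sle hE s z e)

theorem m_sch (p q : St NN) : Measurable fun x => @sch NN (E x) p q := by
  cases p with
  | dead => exact measurable_const
  | root =>
    exact measurable_const.or (Measurable.exists fun κ => Measurable.exists fun w =>
      (m_okw hE κ w).and measurable_const)
  | code c => exact Measurable.exists fun d => (m_cs hE c d).and measurable_const
  | gd κ => exact measurable_const
  | side i κ v => exact measurable_const
  | hb i κ v => exact measurable_const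
  | row κ a l =>
    cases l with
    | nil => exact measurable_const
    | cons b l =>
      exact (Measurable.exists fun v => (measurable_const.iff (hE a b)).and measurable_const).or
        ((Measurable.exists fun v => (measurable_const.iff (hE b a)).and measurable_const).or
          measurable_const)
  | mat κ l =>
    cases l with
    | nil => exact measurable_const
    | cons a l => exact measurable_const
  | tup κ w l =>
    exact measurable_const.or (Measurable.exists fun a => (m_InW hE w a).and measurable_const)

theorem m_slab_stt (en : ℕ → St NN) (δ : St NN) (p : List Idx) (s : St NN) :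
    Measurable fun x => slab (stt (cf (@LT NN (E x)) en δ) s p) := by
  classical
  induction p generalizing s with
  | nil =>
    show Measurable fun _ => slab s
    exact measurable_const
  | cons i p ih =>
    have : (fun x => slab (stt (cf (@LT NN (E x)) en δ) s (i :: p))) =
        fun x => if @sch NN (E x) s (en i.2) then slab (stt (cf (@LT NN (E x)) en δ) (en i.2) p)
          else slab (stt (cf (@LT NN (E x)) en δ) δ p) := by
      funext x
      by_cases h : @sch NN (E x) s (en i.2)
      · rw [if_pos h]
        show slab (stt _ (cf (@LT NN (E x)) en δ s i) p) = _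
        have : cf (@LT NN (E x)) en δ s i = en i.2 := if_pos h
        rw [this]
      · rw [if_neg h]
        show slab (stt _ (cf (@LT NN (E x)) en δ s i) p) = _
        have : cf (@LT NN (E x)) en δ s i = δ := if_neg h
        rw [this]
    rw [this]
    exact Measurable.ite (measurableSet_setOfPred.mpr (m_sch hE s (en i.2))) (ih _) (ih _)

end Meas

/-! ## guardedness -/

theorem gd_LT (α : Type) [LE α] : Gd (LT α) St.dead where
  h0 := rfl
  h1 := by
    intro a a' h
    have key : a' ≠ St.dead → slab a' ≠ 0 := by
      intro h
      cases a' with
      | dead => exact absurd rfl h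
      | root => exact Nat.one_ne_zero
      | code c =>
        show (if c.1 = true then 2 else 3) ≠ 0
        split <;> decide
      | gd κ => show 10 + kn κ ≠ 0; omega
      | side i κ v =>
        show (if i = true then 30 else 31) ≠ 0
        split <;> decide
      | hb i κ v =>
        show (if i = true then 32 else 33) ≠ 0
        split <;> decide
      | row κ a l => show 34 ≠ 0; decide
      | mat κ l => show 35 ≠ 0; decide
      | tup κ w l => show 20 + kn κ ≠ 0; omega
    apply key
    rintro rfl
    cases a with
    | dead => exact h
    | root =>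
      rcases h with ⟨κ, h⟩ | ⟨κ, w, -, h⟩ <;> cases h
    | code c => obtain ⟨d, -, h⟩ := h; cases h
    | gd κ => cases h
    | side i κ v => cases h
    | hb i κ v => rcases h with h | h <;> cases h
    | row κ a l =>
      cases l with
      | nil => exact h
      | cons b l => rcases h with ⟨v, -, h⟩ | ⟨v, -, h⟩ | h <;> cases h
    | mat κ l =>
      cases l with
      | nil => exact h
      | cons b l => rcases h with h | h <;> cases h
    | tup κ w l => rcases h with h | ⟨a, -, h⟩ <;> cases h
  h2 := fun _ h => h

theorem exists_en : ∃ en : ℕ → St NN, Function.Surjective en := by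
  have : Nonempty (St NN) := ⟨St.dead⟩
  exact exists_surjective_nat _

noncomputable def en : ℕ → St NN := exists_en.choose

theorem en_surj : Function.Surjective en := exists_en.choose_spec

/-- the colour of a path -/
noncomputable def col (E : LE NN) (p : List Idx) : ℕ :=
  Nat.pair p.length (slab (stt (cf (@LT NN E) en St.dead) St.root p)) + 1

theorem col_pos (E : LE NN) (p : List Idx) : 1 ≤ col E p := Nat.le_add_left _ _

theorem cf_idx {σ : Type} (L : LTS σ) (en : ℕ → σ) (δ : σ) (a : σ) (i i' : Idx) (h : i.2 = i'.2) :
    cf L en δ a i = cf L en δ a i' := by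
  unfold cf
  rw [h]

theorem col_iff (E E' : LE NN) :
    Bis (@LT NN E) (@LT NN E') .root .root ↔ ∃ F : List Idx ≃o List Idx, ∀ p, col E' (F p) = col E p := by
  constructor
  · rintro ⟨Y, hY, h⟩
    have hf := fbis_of_bis en_surj en_surj (@gd_LT NN E) (@gd_LT NN E') hY
    obtain ⟨F, h1, h2⟩ := tiso_of_fbis (cf_idx _ _ _) (cf_idx _ _ _) hf (Or.inl h)
    refine ⟨F, fun p => ?_⟩
    unfold col
    rw [h1]
    have h3 : slab (stt (cf (@LT NN E) en St.dead) St.root p) =
      slab (stt (cf (@LT NN E') en St.dead) St.root (F p)) := h2 p
    rw [h3]
  · rintro ⟨F, hF⟩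
    have h0 : ∀ p, Nat.pair (F p).length (slab (stt (cf (@LT NN E') en St.dead) St.root (F p))) =
        Nat.pair p.length (slab (stt (cf (@LT NN E) en St.dead) St.root p)) := fun p =>
      Nat.succ_injective (hF p)
    have ht : TIso (@LT NN E).lab (@LT NN E').lab (cf (@LT NN E) en St.dead)
        (cf (@LT NN E') en St.dead) .root .root :=
      ⟨F, fun p => (Nat.pair_eq_pair.mp (h0 p)).1, fun p => (Nat.pair_eq_pair.mp (h0 p)).2.symm⟩
    exact ⟨_, bis_of_fbis en_surj en_surj (@gd_LT NN E) (@gd_LT NN E') (fbis_tiso _ _ _ _), ht⟩

/-- bijection of the index set of the coded order with the natural numbers -/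
theorem exists_num : Nonempty (ℕ ≃ List Idx × ℕ) := nonempty_equiv_of_countable

noncomputable def num : ℕ ≃ List Idx × ℕ := exists_num.some

noncomputable def tob (c : List Idx → ℕ) (m : ℕ) : Bl c := ⟨(num m).1, (num m).2⟩

theorem tob_inj (c : List Idx → ℕ) : Function.Injective (tob c) := by
  intro m n h
  apply num.injective
  exact Prod.ext (congrArg Bl.a h) (congrArg Bl.b h)

theorem tob_surj (c : List Idx → ℕ) : Function.Surjective (tob c) := by
  rintro ⟨a, b⟩
  refine ⟨num.symm (a, b), ?_⟩
  simp [tob]

theorem iso_tob (c d : List Idx → ℕ) :
    (∃ f : ℕ ≃ ℕ, ∀ m n, (tob c m ≤ tob c n ↔ tob d (f m) ≤ tob d (f n))) ↔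
      Nonempty (Bl c ≃o Bl d) := by
  let e1 : ℕ ≃ Bl c := Equiv.ofBijective (tob c) ⟨tob_inj c, tob_surj c⟩
  let e2 : ℕ ≃ Bl d := Equiv.ofBijective (tob d) ⟨tob_inj d, tob_surj d⟩
  constructor
  · rintro ⟨f, hf⟩
    refine ⟨{ toEquiv := e1.symm.trans (f.trans e2), map_rel_iff' := fun {a b} => ?_ }⟩
    have h := hf (e1.symm a) (e1.symm b)
    have ha : tob c (e1.symm a) = a := e1.apply_symm_apply a
    have hb : tob c (e1.symm b) = b := e1.apply_symm_apply b
    rw [ha, hb] at h
    exact h.symm
  · rintro ⟨Φ⟩
    refine ⟨e1.trans (Φ.toEquiv.trans e2.symm), fun m n => ?_⟩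
    have h : ∀ m, tob d ((e1.trans (Φ.toEquiv.trans e2.symm)) m) = Φ (tob c m) := fun m =>
      e2.apply_symm_apply _
    rw [h, h, Φ.le_iff_le]

theorem m_rel {Ω : Type} [MeasurableSpace Ω] {f g : Ω → ℕ} (hf : Measurable f) (hg : Measurable g)
    (P : ℕ → ℕ → Prop) : Measurable fun x => P (f x) (g x) := by
  have h1 : (fun x => P (f x) (g x)) = fun x => ∃ i j, (f x = i ∧ g x = j) ∧ P i j := by
    funext x
    apply propext
    constructor
    · intro h
      exact ⟨_, _, ⟨rfl, rfl⟩, h⟩
    · rintro ⟨i, j, ⟨rfl, rfl⟩, h⟩
      exact h
  rw [h1]
  refine Measurable.exists fun i => Measurable.exists fun j => Measurable.and (Measurable.and ?_ ?_)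
    measurable_const
  · exact measurableSet_setOfPred.mp (hf (measurableSet_singleton i))
  · exact measurableSet_setOfPred.mp (hg (measurableSet_singleton j))

theorem m_tob {Ω : Type} [MeasurableSpace Ω] {c : Ω → List Idx → ℕ}
    (hc : ∀ p, Measurable fun x => c x p) (m n : ℕ) :
    Measurable fun x => tob (c x) m ≤ tob (c x) n := by
  have : (fun x => tob (c x) m ≤ tob (c x) n) = fun x => ((num m).1 < (num n).1 ∨
      ((num m).1 = (num n).1 ∧ kk (c x (num m).1) (num m).2 ≤ kk (c x (num n).1) (num n).2)) := by
    funext x
    exact propext Bl.le_iff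
  rw [this]
  exact measurable_const.or (measurable_const.and
    (m_rel (hc _) (hc _) fun u v => kk u (num m).2 ≤ kk v (num n).2))

end Pool.Agent.H.MP_387a72_lc
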