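import Mathlib

set_option autoImplicit false

/-! ## the Polish group of permutations of the natural numbers -/

namespace Pool.Agent.H63.CB
open Topology

/-- permutations of the natural numbers -/
def SInf : Type := Equiv.Perm ℕ

instance : Group SInf := inferInstanceAs (Group (Equiv.Perm ℕ))

/-- the function of a permutation -/
def SInf.fn (σ : SInf) : ℕ → ℕ := (show Equiv.Perm ℕ from σ)

/-- the pair of functions of a permutation -/
def SInf.pair (σ : SInf) : (ℕ → ℕ) × (ℕ → ℕ) := (σ.fn, (σ⁻¹).fn)

instance : TopologicalSpace SInf := TopologicalSpace.induced SInf.pair inferInstance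

theorem SInf.fn_mul (σ τ : SInf) (n : ℕ) : (σ * τ).fn n = σ.fn (τ.fn n) := rfl

theorem SInf.fn_inv_fn (σ : SInf) (n : ℕ) : (σ⁻¹).fn (σ.fn n) = n :=
  Equiv.symm_apply_apply (show Equiv.Perm ℕ from σ) n

theorem SInf.fn_fn_inv (σ : SInf) (n : ℕ) : σ.fn ((σ⁻¹).fn n) = n :=
  Equiv.apply_symm_apply (show Equiv.Perm ℕ from σ) n

theorem SInf.cont_pair : Continuous SInf.pair := continuous_induced_dom

theorem SInf.cont_fn : Continuous SInf.fn := continuous_fst.comp SInf.cont_pair

theorem SInf.cont_fninv : Continuous fun σ : SInf => (σ⁻¹).fn := continuous_snd.comp SInf.cont_pair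

theorem cont_eval {ι κ : Type} [TopologicalSpace ι] [DiscreteTopology ι] [TopologicalSpace κ] :
    Continuous fun p : (ι → κ) × ι => p.1 p.2 :=
  continuous_prod_of_discrete_right.mpr fun i => continuous_apply i

theorem cont_ev {Z ι κ : Type} [TopologicalSpace Z] [TopologicalSpace ι] [DiscreteTopology ι]
    [TopologicalSpace κ] {f : Z → ι → κ} {g : Z → ι} (hf : Continuous f) (hg : Continuous g) :
    Continuous fun z => f z (g z) :=
  cont_eval.comp (hf.prodMk hg)

instance : IsTopologicalGroup SInf where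
  continuous_mul := by
    refine continuous_induced_rng.mpr ((continuous_pi fun n => ?_).prodMk (continuous_pi fun n => ?_))
    · show Continuous fun p : SInf × SInf => p.1.fn (p.2.fn n)
      exact cont_ev (SInf.cont_fn.comp continuous_fst)
        ((continuous_apply n).comp (SInf.cont_fn.comp continuous_snd))
    · have : (fun p : SInf × SInf => ((p.1 * p.2)⁻¹).fn n) =
          fun p : SInf × SInf => (p.2⁻¹).fn ((p.1⁻¹).fn n) := by
        funext p
        rw [mul_inv_rev]
        rfl
      rw [this]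
      exact cont_ev (SInf.cont_fninv.comp continuous_snd)
        ((continuous_apply n).comp (SInf.cont_fninv.comp continuous_fst))
  continuous_inv := by
    refine continuous_induced_rng.mpr (SInf.cont_fninv.prodMk ?_)
    have : (fun σ : SInf => ((σ⁻¹)⁻¹).fn) = SInf.fn := by
      funext σ
      rw [inv_inv]
    rw [this]
    exact SInf.cont_fn

theorem SInf.range_pair : Set.range SInf.pair =
    {p | (∀ n, p.1 (p.2 n) = n) ∧ (∀ n, p.2 (p.1 n) = n)} := by
  ext p
  constructor
  · rintro ⟨σ, rfl⟩
    exact ⟨fun n => SInf.fn_fn_inv σ n, fun n => SInf.fn_inv_fn σ n⟩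
  · rintro ⟨h1, h2⟩
    exact ⟨(⟨p.1, p.2, h2, h1⟩ : Equiv.Perm ℕ), rfl⟩

theorem SInf.closedEmb : IsClosedEmbedding SInf.pair := by
  refine ⟨⟨⟨rfl⟩, fun σ τ h => Equiv.ext fun n => congrFun (Prod.mk.inj h).1 n⟩, ?_⟩
  rw [SInf.range_pair]
  have : {p : (ℕ → ℕ) × (ℕ → ℕ) | (∀ n, p.1 (p.2 n) = n) ∧ (∀ n, p.2 (p.1 n) = n)} =
      (⋂ n, {p | p.1 (p.2 n) = n}) ∩ ⋂ n, {p | p.2 (p.1 n) = n} := by
    ext p
    simp
  rw [this]
  refine (isClosed_iInter fun n => ?_).inter (isClosed_iInter fun n => ?_)
  · exact isClosed_eq (cont_ev continuous_fst ((continuous_apply n).comp continuous_snd))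
      continuous_const
  · exact isClosed_eq (cont_ev continuous_snd ((continuous_apply n).comp continuous_fst))
      continuous_const

instance : PolishSpace SInf := SInf.closedEmb.polishSpace

end Pool.Agent.H63.CB
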