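import Mathlib
import Pool.Agent.H63.CB.I
import Pool.Agent.H63.CB.J

set_option autoImplicit false

/-!
# Convex bi-embeddability of countable linear orders is Borel reducible to isomorphism

Definitions for the problem MP_387a72_lc and the two main theorems `main_one` (Q1) and
`main_two` (Q2).
-/

namespace Pool.Agent.H63.CB

/-- The relation `{(m, n) : x (m, n) = true}` is a (reflexive) linear order on `ℕ`. -/
structure IsLO (x : ℕ × ℕ → Bool) : Prop where
  refl : ∀ m, x (m, m) = true
  antisymm : ∀ m n, x (m, n) = true → x (n, m) = true → m = n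
  trans : ∀ m n k, x (m, n) = true → x (n, k) = true → x (m, k) = true
  total : ∀ m n, x (m, n) = true ∨ x (n, m) = true

/-- The space of codes of linear orders on `ℕ`, a subspace of the Cantor space: `Bool` is discrete,
`ℕ × ℕ → Bool` has the product topology and `LO` the subspace topology. -/
abbrev LO : Type := {x : ℕ × ℕ → Bool // IsLO x}

/-- `h` is a Borel map: the preimage of a Borel set is Borel. -/
def IsBorelMap {X Y : Type} [TopologicalSpace X] [TopologicalSpace Y] (h : X → Y) : Prop :=
  @Measurable X Y (borel X) (borel Y) h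

/-- The linear orders coded by `x` and `y` are isomorphic. -/
def Iso (x y : LO) : Prop := ∃ f : ℕ ≃ ℕ, ∀ m n, x.1 (m, n) = y.1 (f m, f n)

/-- There is a convex embedding of the order coded by `x` into the order coded by `y`: an order
embedding with convex range. -/
def ConvEmb (x y : LO) : Prop :=
  ∃ f : ℕ → ℕ, (∀ m n, x.1 (m, n) = y.1 (f m, f n)) ∧
    ∀ m n k, y.1 (f m, k) = true → y.1 (k, f n) = true → k ∈ Set.range f

/-- Convex bi-embeddability. -/
def ConvBi (x y : LO) : Prop := ConvEmb x y ∧ ConvEmb y x

/-- `E` is Borel reducible to the orbit equivalence relation of a continuous action of a Polish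
group `G` on a Polish space `Y`. -/
def RedOrbit (E : LO → LO → Prop) : Prop :=
  ∃ (G Y : Type) (_ : Group G) (_ : TopologicalSpace G) (_ : IsTopologicalGroup G)
    (_ : PolishSpace G) (_ : TopologicalSpace Y) (_ : PolishSpace Y) (_ : MulAction G Y)
    (_ : ContinuousSMul G Y) (h : LO → Y),
    IsBorelMap h ∧ ∀ x y, E x y ↔ h x ∈ MulAction.orbit G (h y)

open Pool.Agent.H.MP_387a72_lc

/-- the order coded by `x` -/
@[reducible] def leX (x : LO) : LE NN := ⟨fun m n => x.1 ((m : ℕ), (n : ℕ)) = true⟩

/-- the order coded by `x`, bundled -/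
@[reducible] noncomputable def loX (x : LO) : LinearOrder NN :=
  { leX x with
    le_refl := fun a => x.2.refl a
    le_trans := fun a b c h1 h2 => x.2.trans a b c h1 h2
    le_antisymm := fun a b h1 h2 => x.2.antisymm a b h1 h2
    le_total := fun a b => x.2.total a b
    toDecidableLE := Classical.decRel _ }

theorem conv_iff (x y : LO) : ConvEmb x y ↔
    ∃ R : NN → NN → Prop, @CPI NN NN (leX x) (leX y) R ∧ Tot R := by
  constructor
  · rintro ⟨f, h1, h2⟩
    refine ⟨fun a b => f a = b, ⟨?_, ?_, ?_⟩, fun a => ⟨_, rfl⟩⟩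
    · rintro a b a' b' rfl rfl
      show x.1 _ = true ↔ y.1 _ = true
      rw [h1 a a']
    · rintro a b a' b' z rfl rfl - -
      exact ⟨_, rfl⟩
    · rintro a b a' b' w rfl rfl h3 h4
      exact h2 a a' w h3 h4
  · rintro ⟨R, ⟨h1, -, h3⟩, ht⟩
    choose f hf using ht
    refine ⟨f, fun m n => ?_, fun m n k hk hk' => ?_⟩
    · have := h1 m (f m) n (f n) (hf m) (hf n)
      exact Bool.eq_iff_iff.mpr this
    · obtain ⟨z, hz⟩ := h3 m (f m) n (f n) k (hf m) (hf n) hk hk'
      refine ⟨z, y.2.antisymm _ _ ?_ ?_⟩
      · exact (h1 z (f z) z k (hf z) hz).mp (x.2.refl z)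
      · exact (h1 z k z (f z) hz (hf z)).mp (x.2.refl z)

theorem conv_col (x y : LO) : ConvBi x y ↔
    ∃ F : List Idx ≃o List Idx, ∀ p, col (leX y) (F p) = col (leX x) p := by
  rw [← col_iff, ConvBi, conv_iff, conv_iff]
  exact (@bis_iff NN NN (loX x) (loX y) _ _ _ _).symm

open Classical in
/-- the reduction -/
noncomputable def red (x : LO) : LO :=
  ⟨fun m => decide (tob (col (leX x)) m.1 ≤ tob (col (leX x)) m.2),
    { refl := fun m => decide_eq_true le_rfl
      antisymm := fun m n h1 h2 =>
        tob_inj _ (le_antisymm (of_decide_eq_true h1) (of_decide_eq_true h2))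
      trans := fun m n k h1 h2 =>
        decide_eq_true ((of_decide_eq_true h1).trans (of_decide_eq_true h2))
      total := fun m n => by
        rcases le_total (tob (col (leX x)) m) (tob (col (leX x)) n) with h | h
        · exact Or.inl (decide_eq_true h)
        · exact Or.inr (decide_eq_true h) }⟩

theorem red_iff (x y : LO) : ConvBi x y ↔ Iso (red x) (red y) := by
  rw [conv_col, ← Bl.iso_iff _ _ (col_pos _) (col_pos _), ← iso_tob]
  refine exists_congr fun f => forall_congr' fun m => forall_congr' fun n => ?_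
  show _ ↔ decide _ = decide _
  rw [decide_eq_decide]

theorem meas_le (m n : NN) : Measurable fun x : LO => (leX x).le m n := by
  have h1 : Continuous fun x : LO => x.1 ((m : ℕ), (n : ℕ)) :=
    (continuous_apply ((m : ℕ), (n : ℕ))).comp continuous_subtype_val
  exact measurableSet_setOfPred.mp (h1.measurable (measurableSet_singleton true))

theorem meas_red : IsBorelMap red := by
  show @Measurable LO LO (borel LO) (borel LO) red
  rw [← BorelSpace.measurable_eq (α := LO)]
  have hcol : ∀ p, Measurable fun x : LO => col (leX x) p := by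
    intro p
    unfold col
    exact (Measurable.of_discrete (f := fun n => Nat.pair p.length n + 1)).comp
      (m_slab_stt meas_le en St.dead p St.root)
  have h0 : Measurable fun x : LO => (red x).1 := by
    refine measurable_pi_iff.mpr fun m => ?_
    have h1 := m_tob hcol m.1 m.2
    refine measurable_to_bool ?_
    have h2 := measurableSet_setOfPred.mpr h1
    have h3 : (fun x : LO => (red x).1 m) ⁻¹' {true} =
        {x : LO | tob (col (leX x)) m.1 ≤ tob (col (leX x)) m.2} := by
      ext x
      exact decide_eq_true_iff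
    rw [h3]
    exact h2
  exact h0.subtype_mk

/-! ## the logic action -/

theorem isClosed_LO : IsClosed {x : ℕ × ℕ → Bool | IsLO x} := by
  have e : ∀ u : ℕ × ℕ, Continuous fun x : ℕ × ℕ → Bool => x u := fun u => continuous_apply u
  have c : ∀ u : ℕ × ℕ, IsClosed {x : ℕ × ℕ → Bool | x u = true} := fun u =>
    isClosed_eq (e u) continuous_const
  have o : ∀ u : ℕ × ℕ, IsOpen {x : ℕ × ℕ → Bool | x u = true} := fun u =>
    (isOpen_discrete ({true} : Set Bool)).preimage (e u)
  have : {x : ℕ × ℕ → Bool | IsLO x} =
      ((⋂ m : ℕ, {x | x (m, m) = true}) ∩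
        ⋂ (m : ℕ) (n : ℕ), {x | x (m, n) = true → x (n, m) = true → m = n}) ∩
      ((⋂ (m : ℕ) (n : ℕ) (k : ℕ), {x | x (m, n) = true → x (n, k) = true → x (m, k) = true}) ∩
        ⋂ (m : ℕ) (n : ℕ), {x | x (m, n) = true ∨ x (n, m) = true}) := by
    ext x
    simp only [Set.mem_ofPred_eq, Set.mem_inter_iff, Set.mem_iInter]
    exact ⟨fun h => ⟨⟨h.refl, h.antisymm⟩, h.trans, h.total⟩,
      fun h => ⟨h.1.1, h.1.2, h.2.1, h.2.2⟩⟩
  rw [this]
  refine ((isClosed_iInter fun m => c _).inter (isClosed_iInter fun m => isClosed_iInter fun n =>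
    ?_)).inter ((isClosed_iInter fun m => isClosed_iInter fun n => isClosed_iInter fun k => ?_).inter
    (isClosed_iInter fun m => isClosed_iInter fun n => ?_))
  · have : {x : ℕ × ℕ → Bool | x (m, n) = true → x (n, m) = true → m = n} =
        ({x | x (m, n) = true} ∩ {x | x (n, m) = true} ∩ {_x | ¬ m = n})ᶜ := by
      ext x
      simp only [Set.mem_ofPred_eq, Set.mem_inter_iff, Set.mem_compl_iff]
      tauto
    rw [this]
    exact (((o _).inter (o _)).inter isOpen_const).isClosed_compl
  · have : {x : ℕ × ℕ → Bool | x (m, n) = true → x (n, k) = true → x (m, k) = true} =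
        ({x | x (m, n) = true} ∩ {x | x (n, k) = true} ∩ {x | x (m, k) = true}ᶜ)ᶜ := by
      ext x
      simp only [Set.mem_ofPred_eq, Set.mem_inter_iff, Set.mem_compl_iff]
      tauto
    rw [this]
    exact (((o _).inter (o _)).inter (c _).isOpen_compl).isClosed_compl
  · exact (c _).union (c _)

theorem polish_cantor : PolishSpace (ℕ × ℕ → Bool) := by
  have h1 : SecondCountableTopology (ℕ × ℕ → Bool) := inferInstance
  have h2 : TopologicalSpace.IsCompletelyMetrizableSpace (ℕ × ℕ → Bool) := inferInstance
  exact { h1, h2 with }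

instance : PolishSpace LO :=
  have := polish_cantor
  isClosed_LO.polishSpace

/-- the logic action -/
instance : MulAction SInf LO where
  smul σ x := ⟨fun m => x.1 ((σ⁻¹).fn m.1, (σ⁻¹).fn m.2),
    { refl := fun m => x.2.refl _
      antisymm := fun m n h1 h2 => by
        have := x.2.antisymm _ _ h1 h2
        rw [← SInf.fn_fn_inv σ m, ← SInf.fn_fn_inv σ n, this]
      trans := fun m n k h1 h2 => x.2.trans _ _ _ h1 h2
      total := fun m n => x.2.total _ _ }⟩
  one_smul x := by
    apply Subtype.ext
    funext m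
    rfl
  mul_smul σ τ x := by
    apply Subtype.ext
    funext m
    show x.1 (((σ * τ)⁻¹).fn m.1, ((σ * τ)⁻¹).fn m.2) = _
    rw [mul_inv_rev]
    rfl

theorem smul_val (σ : SInf) (x : LO) (m : ℕ × ℕ) :
    (σ • x).1 m = x.1 ((σ⁻¹).fn m.1, (σ⁻¹).fn m.2) := rfl

instance : ContinuousSMul SInf LO where
  continuous_smul := by
    refine Continuous.subtype_mk (continuous_pi fun m => ?_) _
    show Continuous fun p : SInf × LO => p.2.1 ((p.1⁻¹).fn m.1, (p.1⁻¹).fn m.2)
    refine cont_ev (continuous_subtype_val.comp continuous_snd) (Continuous.prodMk ?_ ?_)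
    · exact (continuous_apply m.1).comp (SInf.cont_fninv.comp continuous_fst)
    · exact (continuous_apply m.2).comp (SInf.cont_fninv.comp continuous_fst)

theorem iso_orbit (x y : LO) : Iso x y ↔ x ∈ MulAction.orbit SInf y := by
  constructor
  · rintro ⟨f, hf⟩
    refine ⟨(show SInf from (f : Equiv.Perm ℕ))⁻¹, Subtype.ext (funext fun m => ?_)⟩
    show y.1 ((((show SInf from (f : Equiv.Perm ℕ))⁻¹)⁻¹).fn m.1,
      (((show SInf from (f : Equiv.Perm ℕ))⁻¹)⁻¹).fn m.2) = x.1 m
    rw [inv_inv]
    exact (hf m.1 m.2).symm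
  · rintro ⟨σ, hσ⟩
    refine ⟨(show Equiv.Perm ℕ from σ⁻¹), fun m n => ?_⟩
    rw [← hσ]
    rfl

/-- There is a Borel map `h : LO → LO` such that two countable linear orders are convexly
bi-embeddable if and only if their images are isomorphic. -/
theorem main_one : ∃ h : LO → LO, IsBorelMap h ∧ ∀ x y, ConvBi x y ↔ Iso (h x) (h y) :=
  ⟨red, meas_red, red_iff⟩

/-- Convex bi-embeddability is Borel reducible to the orbit equivalence relation of a continuous
action of a Polish group on a Polish space. -/
theorem main_two : RedOrbit ConvBi :=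
  ⟨SInf, LO, inferInstance, inferInstance, inferInstance, inferInstance, inferInstance,
    inferInstance, inferInstance, inferInstance, red, meas_red, fun x y =>
    (red_iff x y).trans (iso_orbit _ _)⟩

end Pool.Agent.H63.CB
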